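import Pool.Agent.TH494.PT.LowE
import Pool.Agent.H342R3.Lim.Law

/-!
The upper tail of the perimeter of the largest cluster in the plain model, and in the limit.
-/

set_option autoImplicit false

namespace TH494.PT

open H974 H342P H984P H984N TH992.T

/-- the perimeter is at most of order `n ^ 2` -/
theorem fin_max (n : ℕ) (hn : 1 ≤ n) (F : Finset Plain.Edge) (hF : F ⊆ Plain.edges n) (v : ℤ × ℤ) :
    (Plain.perimeter F v : ℝ) ≤ 16 * (n : ℝ) ^ 2 := by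
  rw [Plain.perimeter_eq hF]
  have h1 := per_max n (↑F) v
  have h2 : (1 : ℝ) ≤ n := by exact_mod_cast hn
  nlinarith

/-- upper bound -/
theorem fin_up {C : ℝ} (hC : 0 < C) (hU : TwoUp C (1/4)) : ∃ c1 C1 : ℝ, 0 < c1 ∧ 0 < C1 ∧
    ∀ n : ℕ, 1 ≤ n → ∀ x : ℝ, 0 ≤ x →
      Plain.prob n (fun F => ∃ v, Plain.Largest n F v ∧
        x * (n : ℝ) ^ (7/4 : ℝ) ≤ (Plain.perimeter F v : ℝ)) ≤ C1 * Real.exp (-(c1 * x ^ 8)) := by
  obtain ⟨c1, C1, h1, h2, h⟩ := up_tail hC hU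
  refine ⟨c1, C1, h1, h2, fun n hn x hx => le_trans ?_ (h n hn x hx)⟩
  refine Plain.prob_le_of_pr fun F hF => ?_
  rintro ⟨v, hv, hx⟩
  refine ⟨v, Plain.isMax_of_largest hv, ?_⟩
  rwa [← Plain.perimeter_eq hF]

/-- lower bound -/
theorem fin_low {c : ℝ} (hc : 0 < c) (hL : LowA c (1/4)) {C : ℝ} (hC : 0 < C)
    (hU : TwoUp C (1/4)) : ∃ c2 K2 : ℝ, 0 < c2 ∧ 0 < K2 ∧
    ∀ n : ℕ, 1 ≤ n → ∀ x : ℝ, 1 ≤ x → x ≤ c2 * (n : ℝ) ^ (1/4 : ℝ) →
      Real.exp (-(K2 * x ^ 8)) ≤ Plain.prob n (fun F => ∀ v, Plain.Largest n F v →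
        x * (n : ℝ) ^ (7/4 : ℝ) ≤ (Plain.perimeterEdges F v : ℝ)) := by
  obtain ⟨c2, K2, h1, h2, h⟩ := per_tail_low hc hL hC hU
  refine ⟨c2, K2, h1, h2, fun n hn x hx hxn => (h n hn x hx hxn).trans ?_⟩
  rw [Plain.prob_eq]
  refine Pr_mono two_ok fun F hF hw v hv => ?_
  have h3 := hw v (Plain.isMax_of_largest hv)
  rw [← Plain.perimeter_eq (by rw [Plain.edges_eq]; exact hF)] at h3
  have h4 : (Plain.perimeter F v : ℝ) ≤ 2 * (Plain.perimeterEdges F v : ℝ) := by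
    exact_mod_cast Plain.perimeter_le F v
  linarith

end TH494.PT
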