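import Pool.Agent.TH494.PT.Fin1

/-!
The upper tail of the perimeter of the largest cluster, in the limit.
-/

set_option autoImplicit false

namespace TH494.PT

open H342P H342P.Plain H342L MeasureTheory Filter Topology

/-- monotonicity of the probability -/
theorem prob_mono {n : ℕ} {A B : Finset Plain.Edge → Prop} (h : ∀ F, F ⊆ Plain.edges n → A F → B F) :
    Plain.prob n A ≤ Plain.prob n B := by
  rw [Plain.prob_eq, Plain.prob_eq]
  refine H974.Pr_mono H984N.two_ok fun F hF hA => h F ?_ hA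
  rw [Plain.edges_eq]
  exact hF

/-- the tails pass to the limit -/
theorem fin_lim {c C c2 K2 : ℝ} (hc2 : 0 < c2)
    (hup : ∀ n : ℕ, 1 ≤ n → ∀ x : ℝ, 0 ≤ x →
      Plain.prob n (fun F => ∃ v, Plain.Largest n F v ∧
        x * (n : ℝ) ^ (7/4 : ℝ) ≤ (Plain.perimeter F v : ℝ)) ≤ C * Real.exp (-(c * x ^ 8)))
    (hlow : ∀ n : ℕ, 1 ≤ n → ∀ x : ℝ, 1 ≤ x → x ≤ c2 * (n : ℝ) ^ (1/4 : ℝ) →
      Real.exp (-(K2 * x ^ 8)) ≤ Plain.prob n (fun F => ∀ v, Plain.Largest n F v →
        x * (n : ℝ) ^ (7/4 : ℝ) ≤ (Plain.perimeterEdges F v : ℝ)))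
    {sel : ℕ → Finset Plain.Edge → ℤ × ℤ} (hsel : ∀ n F, Plain.Largest n F (sel n F))
    {φ : ℕ → ℕ} (hφ : Tendsto φ atTop atTop) {μ : ProbabilityMeasure ℝ}
    (hμ : Tendsto (fun i => lawOf (φ i) fun F =>
      (Plain.perimeter F (sel (φ i) F) : ℝ) / (φ i : ℝ) ^ (7/4 : ℝ)) atTop (𝓝 μ))
    {x : ℝ} (hx : 1 ≤ x) :
    ENNReal.ofReal (Real.exp (-(K2 * x ^ 8))) ≤ (μ : Measure ℝ) {y | x ≤ y} ∧
      (μ : Measure ℝ) {y | x ≤ y} ≤ ENNReal.ofReal (C * Real.exp (-(c / 256 * x ^ 8))) := by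
  have hpos : ∀ᶠ i in atTop, 1 ≤ φ i := hφ.eventually_ge_atTop 1
  constructor
  · have hG : IsClosed {y : ℝ | x ≤ y} := isClosed_le continuous_const continuous_id
    have h1 := ProbabilityMeasure.limsup_measure_closed_le_of_tendsto hμ hG
    refine le_trans ?_ h1
    have hev : ∀ᶠ i in atTop, x ≤ c2 * (φ i : ℝ) ^ (1/4 : ℝ) := by
      have ht : Tendsto (fun i => c2 * (φ i : ℝ) ^ (1/4 : ℝ)) atTop atTop := by
        refine Tendsto.const_mul_atTop hc2 ?_
        exact (tendsto_rpow_atTop (by norm_num)).comp (tendsto_natCast_atTop_atTop.comp hφ)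
      exact ht.eventually_ge_atTop x
    have h2 : ∀ᶠ i in atTop, ENNReal.ofReal (Real.exp (-(K2 * x ^ 8))) ≤
        ((lawOf (φ i) fun F => (Plain.perimeter F (sel (φ i) F) : ℝ) /
          (φ i : ℝ) ^ (7/4 : ℝ) : ProbabilityMeasure ℝ) : Measure ℝ) {y : ℝ | x ≤ y} := by
      filter_upwards [hpos, hev] with i hi hi2
      rw [lawOf_apply _ _ hG.measurableSet]
      refine ENNReal.ofReal_le_ofReal ((hlow (φ i) hi x hx hi2).trans ?_)
      refine prob_mono fun F _ hF => ?_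
      have h3 : (0 : ℝ) < (φ i : ℝ) ^ (7/4 : ℝ) :=
        Real.rpow_pos_of_pos (by exact_mod_cast hi) _
      simp only [Set.mem_ofPred_eq]
      rw [le_div_iff₀ h3]
      refine (hF _ (hsel _ F)).trans ?_
      exact_mod_cast Plain.perimeterEdges_le F _
    calc ENNReal.ofReal (Real.exp (-(K2 * x ^ 8))) =
          limsup (fun _ : ℕ => ENNReal.ofReal (Real.exp (-(K2 * x ^ 8)))) atTop :=
            (limsup_const _).symm
      _ ≤ _ := limsup_le_limsup h2
  · have hG : IsOpen {y : ℝ | x / 2 < y} := isOpen_lt continuous_const continuous_id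
    have h1 := ProbabilityMeasure.le_liminf_measure_open_of_tendsto hμ hG
    have h3 : (μ : Measure ℝ) {y | x ≤ y} ≤ (μ : Measure ℝ) {y | x / 2 < y} :=
      measure_mono fun p hp => by
        simp only [Set.mem_ofPred_eq] at hp ⊢
        linarith
    refine h3.trans (h1.trans ?_)
    have h2 : ∀ᶠ i in atTop, ((lawOf (φ i) fun F => (Plain.perimeter F (sel (φ i) F) : ℝ) /
          (φ i : ℝ) ^ (7/4 : ℝ) : ProbabilityMeasure ℝ) : Measure ℝ) {y : ℝ | x / 2 < y} ≤
        ENNReal.ofReal (C * Real.exp (-(c / 256 * x ^ 8))) := by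
      filter_upwards [hpos] with i hi
      rw [lawOf_apply _ _ hG.measurableSet]
      refine ENNReal.ofReal_le_ofReal ?_
      have h4 := hup (φ i) hi (x / 2) (by positivity)
      have e : c * (x / 2) ^ 8 = c / 256 * x ^ 8 := by ring
      rw [e] at h4
      refine le_trans ?_ h4
      refine prob_mono fun F _ hF => ⟨_, hsel _ F, ?_⟩
      have h3 : (0 : ℝ) < (φ i : ℝ) ^ (7/4 : ℝ) :=
        Real.rpow_pos_of_pos (by exact_mod_cast hi) _
      simp only [Set.mem_ofPred_eq] at hF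
      rw [lt_div_iff₀ h3] at hF
      exact hF.le
    calc liminf (fun i => ((lawOf (φ i) fun F => (Plain.perimeter F (sel (φ i) F) : ℝ) /
          (φ i : ℝ) ^ (7/4 : ℝ) : ProbabilityMeasure ℝ) : Measure ℝ) {y : ℝ | x / 2 < y}) atTop ≤
          liminf (fun _ : ℕ => ENNReal.ofReal (C * Real.exp (-(c / 256 * x ^ 8)))) atTop :=
            liminf_le_liminf h2
      _ = _ := liminf_const _

end TH494.PT
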