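import Pool.Agent.TH494.PT.UpA
import Pool.Agent.TH992.T.Low3

/-!
Lower bound for the upper tail of the perimeter of the largest cluster: the comb.
-/

set_option autoImplicit false

namespace TH494.PT

open H974 Finset H342P H984P H984N TH992.T

/-- the domain of the box -/
def Db (l : ℤ) (n : ℕ) : Dm := ⟨l, n, n, 0⟩

/-- the dual teeth, which start to the right of the spine -/
def TBd (n a I : ℕ) (F : Finset Edg) : Prop :=
  ∀ i < I, LRc (8 * a) n (ys a i + 16 * a) (ys a i + 16 * a + 4 * a) (dmp (RE 0 n 0 n \ F))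

/-- the open part of the comb: teeth and spine -/
def Cmb (n a I : ℕ) (F : Finset Edg) : Prop :=
  TA (Db 0 n) a I F ∧ TBc 0 (4 * a) 0 n F

/-- the edges of the open part -/
noncomputable def T1 (n a I : ℕ) : Finset Edg := E1 (Db 0 n) a I ∪ TBE 0 (4 * a) 0 n

/-- the edges of the dual part -/
noncomputable def T2 (n a I : ℕ) : Finset Edg := E2 (Db (8 * a) n) a I

/-- the height is sufficient -/
abbrev Hg (n a I : ℕ) : Prop := Hgt (Db 0 n) a I

theorem Hg_iff {n a I : ℕ} (l : ℤ) : Hg n a I ↔ Hgt (Db l n) a I := Iff.rfl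

theorem T1_sub {n a I : ℕ} (hH : Hg n a I) (hn : 4 * a ≤ n) : T1 n a I ⊆ RE 0 n 0 n := by
  unfold T1
  refine union_subset (E1_sub hH) ?_
  rintro ⟨x, y, t⟩ he
  cases t
  · rw [mem_TBE_false] at he; rw [mem_RE_false]; omega
  · rw [mem_TBE_true] at he; rw [mem_RE_true]; omega

theorem T2_sub {n a I : ℕ} (ha : 1 ≤ a) (hH : Hg n a I) : T2 n a I ⊆ RE 0 n 0 n := by
  have h := E2_sub (D := Db (8 * a) n) ha hH
  refine h.trans ?_
  unfold Dm.edges Db
  rintro ⟨x, y, t⟩ he
  cases t
  · simp only [mem_RE_false] at he ⊢; omega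
  · simp only [mem_RE_true] at he ⊢; omega

theorem mem_T2 {n a I : ℕ} {e : Edg} :
    e ∈ T2 n a I ↔ ∃ i < I, dl e ∈ LRE (8 * a) n (ys a i + 16 * a) (ys a i + 16 * a + 4 * a) := by
  unfold T2
  exact mem_E2

theorem mem_T1 {n a I : ℕ} {e : Edg} :
    e ∈ T1 n a I ↔ (∃ i < I, e ∈ LRE 0 n (ys a i) (ys a i + 4 * a)) ∨ e ∈ TBE 0 (4 * a) 0 n := by
  unfold T1
  rw [mem_union, mem_E1]
  rfl

theorem T12_disj {n a I : ℕ} (_ : 1 ≤ a) : Disjoint (T1 n a I) (T2 n a I) := by
  rw [disjoint_left]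
  intro e h1 h2
  obtain ⟨j, hj, he'⟩ := mem_T2.mp h2
  rcases mem_T1.mp h1 with ⟨i, hi, he⟩ | he
  · rcases Nat.lt_or_ge j i with h | h
    · have h3 := ys_lt (a := a) h
      obtain ⟨x, y, _ | _⟩ := e
      · rw [mem_LRE_false] at he
        rw [dl_f, mem_LRE_true] at he'
        omega
      · rw [mem_LRE_true] at he
        rw [dl_t, mem_LRE_false] at he'
        omega
    · have h3 := ys_le (a := a) h
      obtain ⟨x, y, _ | _⟩ := e
      · rw [mem_LRE_false] at he
        rw [dl_f, mem_LRE_true] at he'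
        omega
      · rw [mem_LRE_true] at he
        rw [dl_t, mem_LRE_false] at he'
        omega
  · obtain ⟨x, y, _ | _⟩ := e
    · rw [mem_TBE_false] at he
      rw [dl_f, mem_LRE_true] at he'
      omega
    · rw [mem_TBE_true] at he
      rw [dl_t, mem_LRE_false] at he'
      omega

theorem Cmb_mono {n a I : ℕ} {F G : Finset Edg} (h : F ⊆ G) (hF : Cmb n a I F) : Cmb n a I G :=
  ⟨fun i hi => (hF.1 i hi).mono h, hF.2.mono h⟩

theorem Cmb_local {n a I : ℕ} (F : Finset Edg) : Cmb n a I F ↔ Cmb n a I (F ∩ T1 n a I) := by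
  unfold Cmb
  refine and_congr ?_ ?_
  · unfold TA
    refine forall_congr' fun i => forall_congr' fun hi => ?_
    refine LRc_local ?_
    intro e he
    exact mem_T1.mpr (Or.inl ⟨i, hi, he⟩)
  · refine TBc_local ?_
    intro e he
    exact mem_T1.mpr (Or.inr he)

theorem TBd_mono {n a I : ℕ} {F G : Finset Edg} (h : F ⊆ G) (hG : TBd n a I G) : TBd n a I F := by
  intro i hi
  refine (hG i hi).mono ?_
  intro e he
  rw [mem_dmp, mem_sdiff] at he ⊢
  exact ⟨he.1, fun h' => he.2 (h h')⟩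

theorem TBd_local {n a I : ℕ} (F : Finset Edg) : TBd n a I F ↔ TBd n a I (F ∩ T2 n a I) := by
  constructor
  · intro h
    exact TBd_mono inter_subset_left h
  · intro h i hi
    obtain ⟨y, y', h1, h2, h3⟩ := h i hi
    refine ⟨y, y', h1, h2, h3.mono ?_⟩
    rintro e ⟨he1, he2⟩
    refine ⟨?_, he2⟩
    rw [mem_coe, mem_dmp, mem_sdiff] at he1 ⊢
    refine ⟨he1.1, fun h' => he1.2 (mem_inter.mpr ⟨h', mem_T2.mpr ⟨i, hi, ?_⟩⟩)⟩
    rw [Equiv.apply_symm_apply]
    exact he2

/-- The vertex is in the middle of a period, right of the spine. -/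
abbrev Md (n a I : ℕ) (v : Vtx) : Prop := Mid (Db (12 * a) n) a I v

theorem Md_left {n a I : ℕ} {v : Vtx} (h : Md n a I v) : 25 * (a : ℤ) ≤ v.1 := by
  have := h.left
  unfold Db at this
  simp only at this
  omega

theorem Md_right {n a I : ℕ} {v : Vtx} (h : Md n a I v) : v.1 ≤ n - 13 * (a : ℤ) := by
  have := h.right
  unfold Db at this
  simp only at this
  omega

theorem RA_signed2 {n a I : ℕ} (_ : 1 ≤ a) {v : Vtx} (hv : Md n a I v)
    {F G : Finset Edg} (h0 : F \ (T1 n a I ∪ T2 n a I) = G \ (T1 n a I ∪ T2 n a I))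
    (h1 : F ∩ T1 n a I ⊆ G ∩ T1 n a I) (h2 : G ∩ T2 n a I ⊆ F ∩ T2 n a I)
    (h : RA v a (↑F)) : RA v a (↑G) := by
  have hl := Md_left hv
  obtain ⟨i, hi, hr1, hr2⟩ := hv.row
  obtain ⟨⟨w, hw, h3⟩, g, hg, h4⟩ := h
  refine ⟨⟨w, hw, h3.mono ?_⟩, g, hg, h4.mono ?_⟩
  · rintro e ⟨he1, he2⟩
    refine ⟨?_, he2⟩
    rw [mem_coe] at he1 he2 ⊢
    by_cases hc1 : e ∈ T1 n a I
    · exact (mem_inter.mp (h1 (mem_inter.mpr ⟨he1, hc1⟩))).1
    · have hc2 : e ∉ T2 n a I := by
        intro hc
        obtain ⟨j, hj, he3⟩ := mem_T2.mp hc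
        unfold PR at he2
        rcases Nat.lt_or_ge j i with h | h
        · have h5 := ys_lt (a := a) h
          obtain ⟨x, y, _ | _⟩ := e
          · rw [mem_RE_false] at he2
            rw [dl_f, mem_LRE_true] at he3
            omega
          · rw [mem_RE_true] at he2
            rw [dl_t, mem_LRE_false] at he3
            omega
        · have h5 := ys_le (a := a) h
          obtain ⟨x, y, _ | _⟩ := e
          · rw [mem_RE_false] at he2
            rw [dl_f, mem_LRE_true] at he3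
            omega
          · rw [mem_RE_true] at he2
            rw [dl_t, mem_LRE_false] at he3
            omega
      have h5 : e ∈ F \ (T1 n a I ∪ T2 n a I) := by
        rw [mem_sdiff, mem_union]; exact ⟨he1, fun hc => hc.elim hc1 hc2⟩
      rw [h0] at h5
      exact (mem_sdiff.mp h5).1
  · rintro e ⟨he1, he2⟩
    refine ⟨he1, fun heG => he2 ?_⟩
    rw [mem_coe] at heG ⊢
    by_cases hc2 : e ∈ T2 n a I
    · exact (mem_inter.mp (h2 (mem_inter.mpr ⟨heG, hc2⟩))).1
    · have hc1 : e ∉ T1 n a I := by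
        intro hc
        simp only [dE, DR, Set.mem_ofPred_eq] at he1
        rcases mem_T1.mp hc with ⟨j, hj, he3⟩ | he3
        · rcases le_or_gt j i with h | h
          · have h5 := ys_le (a := a) h
            obtain ⟨x, y, _ | _⟩ := e
            · rw [dl_f, mem_RE_true] at he1
              rw [mem_LRE_false] at he3
              omega
            · rw [dl_t, mem_RE_false] at he1
              rw [mem_LRE_true] at he3
              omega
          · have h5 := ys_lt (a := a) h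
            obtain ⟨x, y, _ | _⟩ := e
            · rw [dl_f, mem_RE_true] at he1
              rw [mem_LRE_false] at he3
              omega
            · rw [dl_t, mem_RE_false] at he1
              rw [mem_LRE_true] at he3
              omega
        · obtain ⟨x, y, _ | _⟩ := e
          · rw [dl_f, mem_RE_true] at he1
            rw [mem_TBE_false] at he3
            omega
          · rw [dl_t, mem_RE_false] at he1
            rw [mem_TBE_true] at he3
            omega
      have h5 : e ∈ G \ (T1 n a I ∪ T2 n a I) := by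
        rw [mem_sdiff, mem_union]; exact ⟨heG, fun hc => hc.elim hc1 hc2⟩
      rw [← h0] at h5
      exact (mem_sdiff.mp h5).1

/-- correlation inequality -/
theorem comb_harris {n a I : ℕ} (ha : 1 ≤ a) (hH : Hg n a I) (hn : 4 * a ≤ n) {v : Vtx}
    (hv : Md n a I v) :
    P (RE 0 n 0 n) (fun F => RA v a (↑F)) *
      (P (RE 0 n 0 n) (Cmb n a I) * P (RE 0 n 0 n) (TBd n a I)) ≤
      P (RE 0 n 0 n) (fun F => RA v a (↑F) ∧ (Cmb n a I F ∧ TBd n a I F)) := by
  refine harris_signed two_ok (T1_sub hH hn) (T2_sub ha hH) (T12_disj ha)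
    (fun F _ => Cmb_local F) (fun F G h hF => Cmb_mono h hF) (fun F _ => TBd_local F)
    (fun F G h hG => TBd_mono h hG) (fun F G _ _ h0 h1 h2 h => RA_signed2 ha hv h0 h1 h2 h)

/-- the probability of the comb -/
theorem comb_indep {n a I : ℕ} (ha : 1 ≤ a) (hH : Hg n a I) (hn : 4 * a ≤ n) :
    P (RE 0 n 0 n) (fun F => Cmb n a I F ∧ TBd n a I F) =
      P (RE 0 n 0 n) (Cmb n a I) * P (RE 0 n 0 n) (TBd n a I) :=
  Pr_indep (T1_sub hH hn) (T2_sub ha hH) (T12_disj ha) (fun F _ => Cmb_local F)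
    (fun F _ => TBd_local F)

/-- the two-arm event in the middle of a period -/
theorem ra_ge2 {c : ℝ} (hL : LowA c (1/4)) {n a I : ℕ} (ha : 1 ≤ a) (hH : Hg n a I)
    {v : Vtx} (hv : Md n a I v) :
    c * (a:ℝ) ^ (-(1/4) : ℝ) ≤ P (RE 0 n 0 n) (fun F => RA v a (↑F)) := by
  have hl := Md_left hv
  have hr := Md_right hv
  obtain ⟨i, hi, hr1, hr2⟩ := hv.row
  have h3 := hH i hi
  unfold Db at h3
  simp only at h3
  have h4 := ys_ge a i
  have ha' : (1 : ℤ) ≤ a := by exact_mod_cast ha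
  have hB : BA v a ⊆ RE 0 n 0 n := by
    unfold BA
    rintro ⟨x, y, b⟩ he
    cases b
    · rw [mem_RE_false] at he ⊢
      omega
    · rw [mem_RE_true] at he ⊢
      omega
  have hv' : v ∈ ctr v a := by rw [mem_ctr]; omega
  have e := pr_ra_ge hL ha hv'
  rw [pr_ra_local (BA_sub_NB ha hv')] at e
  unfold P
  rw [pr_ra_local hB]
  exact e

end TH494.PT
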