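import Pool.Agent.TH494.PT.LowA
import Pool.Agent.H984R3.Per.PerGe

/-!
Lower bound for the upper tail: deterministic part. In a comb the cluster of largest diameter is
the comb, and its perimeter is at least the number of the vertices with separated arms.
-/

set_option autoImplicit false

namespace TH494.PT

open H974 Finset H342P H984P H984N TH992.T

theorem col_up {n : ℕ} {F : Finset Edg} (hF : F ⊆ RE 0 n 0 n) (y : ℤ) (k : ℕ) :
    DReach (↑F : Set Edg)ᶜ ((n:ℤ), y) ((n:ℤ), y + k) := by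
  induction k with
  | zero =>
    simp only [Nat.cast_zero, add_zero]
    exact DReach.refl _ _
  | succ k ih =>
    refine ih.trans (DAdj.reach ⟨((n:ℤ), y + k + 1, true), ?_, ?_⟩)
    · intro h
      have := hF (mem_coe.mp h)
      rw [mem_RE_true] at this
      omega
    · left
      simp only [dsrc_true, dtgt_mk, Prod.mk.injEq, true_and]
      push_cast
      omega

theorem col_free {n : ℕ} {F : Finset Edg} (hF : F ⊆ RE 0 n 0 n) (y y' : ℤ) :
    DReach (↑F : Set Edg)ᶜ ((n:ℤ), y) ((n:ℤ), y') := by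
  rcases le_total y y' with h | h
  · have := col_up hF y (y' - y).toNat
    rwa [show y + ((y' - y).toNat : ℤ) = y' by omega] at this
  · have := col_up hF y' (y - y').toNat
    rw [show y' + ((y - y').toNat : ℤ) = y by omega] at this
    exact this.symm

theorem row_up {n : ℕ} {F : Finset Edg} (hF : F ⊆ RE 0 n 0 n) (x : ℤ) (k : ℕ) :
    DReach (↑F : Set Edg)ᶜ (x, -1) (x + k, -1) := by
  induction k with
  | zero =>
    simp only [Nat.cast_zero, add_zero]
    exact DReach.refl _ _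
  | succ k ih =>
    refine ih.trans (DAdj.reach ⟨(x + k + 1, -1, false), ?_, ?_⟩)
    · intro h
      have := hF (mem_coe.mp h)
      rw [mem_RE_false] at this
      omega
    · left
      simp only [dsrc_false, dtgt_mk, Prod.mk.injEq, and_true]
      push_cast
      omega

theorem row_free {n : ℕ} {F : Finset Edg} (hF : F ⊆ RE 0 n 0 n) (x x' : ℤ) :
    DReach (↑F : Set Edg)ᶜ (x, -1) (x', -1) := by
  rcases le_total x x' with h | h
  · have := row_up hF x (x' - x).toNat
    rwa [show x + ((x' - x).toNat : ℤ) = x' by omega] at this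
  · have := row_up hF x' (x - x').toNat
    rw [show x' + ((x - x').toNat : ℤ) = x by omega] at this
    exact this.symm

theorem outer_right_face {n : ℕ} {F : Finset Edg} (hF : F ⊆ RE 0 n 0 n) (w : Vtx) (y : ℤ) :
    Outer (↑F) w ((n:ℤ), y) := by
  unfold Outer
  exact ((col_free hF y (-1)).trans (row_free hF n (-1))).mono
    (Set.compl_subset_compl.mpr fun e he => he.1)

theorem mem_box_of_adj {n : ℕ} {F : Finset Edg} (hF : F ⊆ RE 0 n 0 n) {u v : Vtx}
    (h : Adj (↑F : Set Edg) u v) : inR 0 n 0 n u := by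
  obtain ⟨⟨x, y, t⟩, he, hc⟩ := h
  have h1 := hF (mem_coe.mp he)
  unfold inR
  cases t
  · rw [mem_RE_false] at h1
    rcases hc with ⟨h2, h3⟩ | ⟨h2, h3⟩
    · rw [← h2]; simp only [src_mk]; omega
    · rw [← h3]; simp only [tgt_false]; omega
  · rw [mem_RE_true] at h1
    rcases hc with ⟨h2, h3⟩ | ⟨h2, h3⟩
    · rw [← h2]; simp only [src_mk]; omega
    · rw [← h3]; simp only [tgt_true]; omega

theorem mem_box_of_reach {n : ℕ} {F : Finset Edg} (hF : F ⊆ RE 0 n 0 n) {u v : Vtx}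
    (h : Reach (↑F : Set Edg) u v) (hne : u ≠ v) : inR 0 n 0 n u := by
  rcases Relation.ReflTransGen.cases_head h with h0 | ⟨c, hc, _⟩
  · exact absurd h0 hne
  · exact mem_box_of_adj hF hc

/-- the left ends of the teeth belong to one cluster -/
theorem comb_conn {n a I : ℕ} (ha : 1 ≤ a) (hn : 200 * a ≤ n) (hH : Hg n a I) {F : Finset Edg}
    (hC : Cmb n a I F) : ∃ z : Vtx, ∀ i < I, ∃ y1 y2 : ℤ,
      (ys a i ≤ y1 ∧ y1 ≤ ys a i + 4 * a) ∧ (ys a i ≤ y2 ∧ y2 ≤ ys a i + 4 * a) ∧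
      Reach ((↑F : Set Edg) ∩ ↑(LRE 0 n (ys a i) (ys a i + 4 * a))) (0, y1) ((n:ℤ), y2) ∧
      Reach (↑F : Set Edg) z (0, y1) := by
  obtain ⟨hTA, x, x', hx, hx', hS⟩ := hC
  refine ⟨(x, 0), fun i hi => ?_⟩
  obtain ⟨y1, y2, h1, h2, h3⟩ := hTA i hi
  have hh := hH i hi
  unfold Db at h3 hh
  simp only at h3 hh
  have hy := ys_ge a i
  have ha' : (1 : ℤ) ≤ a := by exact_mod_cast ha
  have hn' : 200 * (a : ℤ) ≤ n := by exact_mod_cast hn
  refine ⟨y1, y2, h1, h2, h3, ?_⟩
  have e := meet_gen (F := (↑F : Set Edg)) (S := RE 0 n 0 n) (V := TBE 0 (4 * a) 0 n)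
    (Hh := LRE 0 n (ys a i) (ys a i + 4 * a)) (p := 0) (q := 4 * a) (c := ys a i)
    (d := ys a i + 4 * a) (by omega) (by omega) ?_ ?_ ?_ ?_ ?_ ?_ ?_ hS (by simp only; omega)
    (by simp only; omega) h3 (by simp only; omega) (by simp only; omega)
  · exact e.mono Set.inter_subset_left
  · rintro ⟨x, y, t⟩ he
    cases t
    · rw [mem_TBE_false] at he; rw [mem_RE_false]; omega
    · rw [mem_TBE_true] at he; rw [mem_RE_true]; omega
  · rintro ⟨x, y, t⟩ he
    cases t
    · rw [mem_LRE_false] at he; rw [mem_RE_false]; omega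
    · rw [mem_LRE_true] at he; rw [mem_RE_true]; omega
  · rintro ⟨x, y, t⟩ he
    cases t
    · rw [mem_RE_false] at he ⊢; omega
    · rw [mem_RE_true] at he ⊢; omega
  · intro x y h; rw [mem_TBE_false] at h; omega
  · intro x y h; rw [mem_TBE_true] at h; omega
  · intro x y h; rw [mem_LRE_true] at h; omega
  · intro x y h; rw [mem_LRE_false] at h; omega

/-- a cluster of extent almost `n` meets every tooth which is not close to the boundary -/
theorem meet_tooth {n a I : ℕ} (ha : 1 ≤ a) {F : Finset Edg} (hF : F ⊆ RE 0 n 0 n)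
    {c d y1 y2 : ℤ} (hcd : c < d) (hn : 0 < (n : ℤ)) (hy1 : c ≤ y1 ∧ y1 ≤ d)
    (hR : Reach ((↑F : Set Edg) ∩ ↑(LRE 0 n c d)) (0, y1) ((n:ℤ), y2)) {u w : Vtx}
    (h : Reach (↑F : Set Edg) u w) (hu : u.2 ≤ c) (hw : d ≤ w.2) (hc : 0 ≤ c) (hd : d ≤ n) :
    Reach (↑F : Set Edg) u (0, y1) := by
  have e := meet_gen (F := (↑F : Set Edg)) (S := RE 0 n 0 n) (V := RE 0 n 0 n)
    (Hh := LRE 0 n c d) (p := 0) (q := n) (c := c)
    (d := d) hn hcd (Finset.Subset.refl _) ?_ ?_ ?_ ?_ ?_ ?_ (u := u) (w := w)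
    (h.mono (Set.subset_inter (Set.Subset.refl _) (by exact_mod_cast hF))) hu
    hw hR (by simp only; omega) (by simp only; omega)
  · exact e.mono Set.inter_subset_left
  · rintro ⟨x, y, t⟩ he
    cases t
    · rw [mem_LRE_false] at he; rw [mem_RE_false]; omega
    · rw [mem_LRE_true] at he; rw [mem_RE_true]; omega
  · rintro ⟨x, y, t⟩ he
    cases t
    · rw [mem_RE_false] at he ⊢; omega
    · rw [mem_RE_true] at he ⊢; omega
  · intro x y h; rw [mem_RE_false] at h; omega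
  · intro x y h; rw [mem_RE_true] at h; omega
  · intro x y h; rw [mem_LRE_true] at h; omega
  · intro x y h; rw [mem_LRE_false] at h; omega

/-- two points at distance at least that of the ends of the comb -/
theorem far_apart {n a : ℕ} (ha : 1 ≤ a) (hn : 200 * a ≤ n) {u w : Vtx} (hu : inR 0 n 0 n u)
    (hw : inR 0 n 0 n w) (h : (n : ℤ) ^ 2 + ((n : ℤ) - 84 * a) ^ 2 ≤ dsq u w) :
    (n : ℤ) - 84 * a ≤ |u.2 - w.2| := by
  unfold inR at hu hw
  have ha' : (1 : ℤ) ≤ a := by exact_mod_cast ha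
  have hn' : 200 * (a : ℤ) ≤ n := by exact_mod_cast hn
  unfold dsq at h
  have h1 : (u.1 - w.1) ^ 2 ≤ (n : ℤ) ^ 2 := by
    rw [← sq_abs (u.1 - w.1)]
    exact pow_le_pow_left₀ (abs_nonneg _) (by rw [abs_le]; omega) 2
  have h2 : ((n : ℤ) - 84 * a) ^ 2 ≤ |u.2 - w.2| ^ 2 := by
    rw [sq_abs]; omega
  exact (sq_le_sq₀ (by omega) (abs_nonneg _)).mp h2

/-- the cluster of largest diameter is the comb -/
theorem max_comb {n a I : ℕ} (ha : 1 ≤ a) (hn : 200 * a ≤ n) (hH : Hg n a I) (hI : 3 ≤ I)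
    (hI2 : (n : ℤ) ≤ ys a (I - 1) + 75 * a) {F : Finset Edg} (hF : F ⊆ RE 0 n 0 n) {z : Vtx}
    (hz : ∀ i < I, ∃ y1 y2 : ℤ,
      (ys a i ≤ y1 ∧ y1 ≤ ys a i + 4 * a) ∧ (ys a i ≤ y2 ∧ y2 ≤ ys a i + 4 * a) ∧
      Reach ((↑F : Set Edg) ∩ ↑(LRE 0 n (ys a i) (ys a i + 4 * a))) (0, y1) ((n:ℤ), y2) ∧
      Reach (↑F : Set Edg) z (0, y1)) {v : Vtx} (hv : IsMax n (↑F) v) :
    Reach (↑F : Set Edg) v z := by
  have ha' : (1 : ℤ) ≤ a := by exact_mod_cast ha
  have hn' : 200 * (a : ℤ) ≤ n := by exact_mod_cast hn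
  obtain ⟨p, q, hp, hq, hmax⟩ := hv
  obtain ⟨y1, y2, a1, a2, a3, a4⟩ := hz 0 (by omega)
  obtain ⟨y1', y2', b1, b2, b3, b4⟩ := hz (I - 1) (by omega)
  have h0 := hH (I - 1) (by omega)
  unfold Db at h0
  simp only at h0
  have e0 : ys a 0 = 5 * a := by unfold ys; push_cast; ring
  have hr : Reach (↑F : Set Edg) (0, y1) ((n:ℤ), y2') :=
    (a4.symm.trans b4).trans (b3.mono Set.inter_subset_left)
  have h1 := hmax (0, y1) ((n:ℤ), y2') (by unfold inR; simp only; omega)
    (by unfold inR; simp only; omega) hr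
  have h2 : (n : ℤ) ^ 2 + ((n : ℤ) - 84 * a) ^ 2 ≤ dsq (0, y1) ((n:ℤ), y2') := by
    unfold dsq
    simp only
    have h3 : ((n : ℤ) - 84 * a) ^ 2 ≤ (y2' - y1) ^ 2 := by
      apply pow_le_pow_left₀ (by omega) (by omega)
    nlinarith
  have hpos : 0 < dsq p q := by
    have : 0 < (n : ℤ) ^ 2 := by
      have : 0 < (n : ℤ) := by omega
      positivity
    have := sq_nonneg ((n : ℤ) - 84 * a)
    omega
  have hne : p ≠ q := by
    intro h
    rw [h] at hpos
    unfold dsq at hpos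
    simp at hpos
  have hpq : Reach (↑F : Set Edg) p q := hp.symm.trans hq
  have hpb := mem_box_of_reach hF hpq hne
  have hqb := mem_box_of_reach hF hpq.symm hne.symm
  have hfar := far_apart ha hn hpb hqb (h2.trans h1)
  obtain ⟨w1, w2, c1, c2, c3, c4⟩ := hz 2 (by omega)
  have e2 : ys a 2 = 85 * a := by unfold ys; push_cast; ring
  rw [e2] at c1 c2 c3
  unfold inR at hpb hqb
  rcases le_total p.2 q.2 with h | h
  · have h4 : (n : ℤ) - 84 * a ≤ q.2 - p.2 := by
      rw [abs_of_nonpos (by omega)] at hfar; omega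
    have := meet_tooth (a := a) (I := I) ha hF (by omega) (by omega) (by omega) c3 hpq
      (by omega) (by omega) (by omega) (by omega)
    exact (hp.trans this).trans c4.symm
  · have h4 : (n : ℤ) - 84 * a ≤ p.2 - q.2 := by
      rw [abs_of_nonneg (by omega)] at hfar; omega
    have := meet_tooth (a := a) (I := I) ha hF (by omega) (by omega) (by omega) c3 hpq.symm
      (by omega) (by omega) (by omega) (by omega)
    exact (hq.trans this).trans c4.symm

end TH494.PT
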