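import Pool.Agent.TH494.PT.LowB

/-!
Lower bound for the upper tail: the vertices with separated arms are on the perimeter.
-/

set_option autoImplicit false

namespace TH494.PT

open H974 Finset H342P H984P H984N TH992.T

/-- a vertex with separated arms in the middle of a period belongs to the comb, and its north-east
face to the outer component -/
theorem comb_vertex {n a I : ℕ} (ha : 1 ≤ a) (hn : 200 * a ≤ n) (hH : Hg n a I)
    {F : Finset Edg} (hF : F ⊆ RE 0 n 0 n) {z : Vtx}
    (hz : ∀ i < I, ∃ y1 y2 : ℤ,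
      (ys a i ≤ y1 ∧ y1 ≤ ys a i + 4 * a) ∧ (ys a i ≤ y2 ∧ y2 ≤ ys a i + 4 * a) ∧
      Reach ((↑F : Set Edg) ∩ ↑(LRE 0 n (ys a i) (ys a i + 4 * a))) (0, y1) ((n:ℤ), y2) ∧
      Reach (↑F : Set Edg) z (0, y1)) (hT : TBd n a I F) {v : Vtx} (hv : Md n a I v)
    (hRA : RA v a (↑F)) :
    Reach (↑F : Set Edg) z v ∧ ∀ y : ℤ, DReach (↑F : Set Edg)ᶜ ((n:ℤ), y) v := by
  have ha' : (1 : ℤ) ≤ a := by exact_mod_cast ha
  have hn' : 200 * (a : ℤ) ≤ n := by exact_mod_cast hn
  have hl := Md_left hv
  have hr := Md_right hv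
  obtain ⟨i, hi, hr1, hr2⟩ := hv.row
  have hh := hH i hi
  unfold Db at hh
  simp only at hh
  have hy := ys_ge a i
  obtain ⟨⟨w, hw, hRw⟩, g, hg, hDg⟩ := hRA
  obtain ⟨v1, v2⟩ := v
  simp only at hl hr hr1 hr2 hw hg
  constructor
  · -- the open arm
    obtain ⟨y1, y2, hy1, hy2, hc, hzz⟩ := hz i hi
    have e1 : Reach ((↑F : Set Edg) ∩ ↑(RE 0 n 0 n)) w (0, y1) := by
      refine meet_gen (p := v1 - 12 * a) (q := v1 + 12 * a) (c := ys a i) (d := ys a i + 4 * a)
        (by omega) (by omega) (V := PR (v1, v2) a)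
        (Hh := LRE 0 n (ys a i) (ys a i + 4 * a)) ?_ ?_ ?_ ?_ ?_ ?_ ?_
        hRw.symm (by omega) (by simp only; omega) hc (by simp only; omega) (by simp only; omega)
      · rintro ⟨x, y, _ | _⟩ h
        · simp only [PR, mem_RE_false] at h ⊢; omega
        · simp only [PR, mem_RE_true] at h ⊢; omega
      · rintro ⟨x, y, _ | _⟩ h
        · simp only [mem_RE_false, mem_LRE_false] at h ⊢; omega
        · simp only [mem_RE_true, mem_LRE_true] at h ⊢; omega
      · rintro ⟨x, y, _ | _⟩ h
        · simp only [mem_RE_false] at h ⊢; omega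
        · simp only [mem_RE_true] at h ⊢; omega
      · intro x y h; simp only [PR, mem_RE_false] at h; omega
      · intro x y h; simp only [PR, mem_RE_true] at h; omega
      · intro x y h; simp only [mem_LRE_true] at h; omega
      · intro x y h; simp only [mem_LRE_false] at h; omega
    exact (hzz.trans (e1.mono Set.inter_subset_left).symm).trans
      (hRw.mono Set.inter_subset_left).symm
  · -- the dual arm
    intro yy
    obtain ⟨y1, y2, hy1, hy2, hc⟩ := hT i hi
    obtain ⟨F', hF'⟩ : ∃ F' : Finset Edg, F' = dmp (RE 0 n 0 n \ F) := ⟨_, rfl⟩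
    rw [← hF'] at hc
    have a1 : Reach ((↑F' : Set Edg) ∩ ↑(DR (v1, v2) a)) (v1, v2) g := by
      refine (reach_dl.mpr hDg).mono ?_
      rintro _ ⟨e, ⟨he1, he2⟩, rfl⟩
      refine ⟨?_, he1⟩
      rw [hF', mem_coe, mem_dmp, Equiv.symm_apply_apply, mem_sdiff]
      refine ⟨?_, he2⟩
      obtain ⟨x, y, _ | _⟩ := e
      · simp only [dE, DR, Set.mem_ofPred_eq, dl_f, mem_RE_true] at he1
        simp only [mem_RE_false]; omega
      · simp only [dE, DR, Set.mem_ofPred_eq, dl_t, mem_RE_false] at he1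
        simp only [mem_RE_true]; omega
    obtain ⟨S', hS'⟩ : ∃ S' : Finset Edg, S' = RE 0 n 0 n := ⟨_, rfl⟩
    have e1 : Reach ((↑F' : Set Edg) ∩ ↑S') (v1, v2) (8 * a, y1) := by
      refine meet_gen (p := v1 - 12 * a) (q := v1 + 12 * a) (c := ys a i + 16 * a)
        (d := ys a i + 16 * a + 4 * a)
        (by omega) (by omega) (V := DR (v1, v2) a)
        (Hh := LRE (8 * a) n (ys a i + 16 * a) (ys a i + 16 * a + 4 * a)) ?_ ?_ ?_ ?_ ?_ ?_ ?_
        a1 (by simp only; omega) (by omega) hc (by simp only; omega) (by simp only; omega)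
      · rintro ⟨x, y, _ | _⟩ h
        · simp only [DR, hS', mem_RE_false] at h ⊢; omega
        · simp only [DR, hS', mem_RE_true] at h ⊢; omega
      · rintro ⟨x, y, _ | _⟩ h
        · simp only [hS', mem_RE_false, mem_LRE_false] at h ⊢; omega
        · simp only [hS', mem_RE_true, mem_LRE_true] at h ⊢; omega
      · rintro ⟨x, y, _ | _⟩ h
        · simp only [hS', mem_RE_false] at h ⊢; omega
        · simp only [hS', mem_RE_true] at h ⊢; omega
      · intro x y h; simp only [DR, mem_RE_false] at h; omega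
      · intro x y h; simp only [DR, mem_RE_true] at h; omega
      · intro x y h; simp only [mem_LRE_true] at h; omega
      · intro x y h; simp only [mem_LRE_false] at h; omega
    have e3 : DReach (↑F : Set Edg)ᶜ (v1, v2) (n, y2) := by
      rw [← reach_dl]
      refine ((e1.mono Set.inter_subset_left).trans (hc.mono Set.inter_subset_left)).mono ?_
      intro e h1
      refine ⟨dl.symm e, ?_, by simp⟩
      rw [hF', mem_coe, mem_dmp, mem_sdiff] at h1
      exact h1.2
    exact (col_free hF yy y2).trans e3.symm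

open Classical in
/-- number of vertices with separated arms in the middle of the periods -/
noncomputable def Zc (n a I : ℕ) (F : Finset Edg) : ℝ :=
  ∑ v ∈ Ws (Db (12 * a) n) a I, ind (RA v a (↑F))

theorem mem_Ws {n a I : ℕ} {v : Vtx} (h : v ∈ Ws (Db (12 * a) n) a I) : Md n a I v := by
  classical
  unfold Ws at h
  rw [mem_filter] at h
  exact h.2

/-- in a comb the perimeter of every cluster of largest diameter is large -/
theorem comb_per {n a I : ℕ} (ha : 1 ≤ a) (hn : 200 * a ≤ n) (hH : Hg n a I) (hI : 3 ≤ I)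
    (hI2 : (n : ℤ) ≤ ys a (I - 1) + 75 * a) {F : Finset Edg} (hF : F ⊆ RE 0 n 0 n)
    (hC : Cmb n a I F) (hT : TBd n a I F) {w : Vtx} (hw : IsMax n (↑F) w) :
    Zc n a I F ≤ 8 * (per n (↑F) w : ℝ) := by
  classical
  have ha' : (1 : ℤ) ≤ a := by exact_mod_cast ha
  have hn' : 200 * (a : ℤ) ≤ n := by exact_mod_cast hn
  obtain ⟨z, hz⟩ := comb_conn ha hn hH hC
  have hwz := max_comb ha hn hH hI hI2 hF hz hw
  obtain ⟨y1, y2, a1, a2, a3, a4⟩ := hz 0 (by omega)
  have hwl : Reach (↑F : Set Edg) w (0, y1) := hwz.trans a4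
  have hwr : Reach (↑F : Set Edg) w ((n:ℤ), y2) := hwl.trans (a3.mono Set.inter_subset_left)
  have hne : ∃ w', w' ≠ w ∧ Reach (↑F : Set Edg) w w' := by
    by_cases h : ((0 : ℤ), y1) = w
    · refine ⟨((n:ℤ), y2), ?_, hwr⟩
      rw [← h]
      intro h2
      have := congrArg Prod.fst h2
      simp only at this
      omega
    · exact ⟨_, h, hwl⟩
  have key := per_ge hF (v := w) (σ := (((n:ℤ), y2), Q4.ne)) hwr
    (by rw [face_ne]; exact outer_right_face hF w y2) hne
  have h1 : ((Ws (Db (12 * a) n) a I).filter (fun v => RA v a (↑F))).card ≤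
      nc4 (((n:ℤ), y2), Q4.ne) (↑F) (Bx 0 0 n) := by
    unfold nc4
    refine le_trans ?_ (single_le_sum (f := fun q : Q4 => ((Bx 0 0 n).filter
      (fun v => Reach (↑F : Set Edg) (((n:ℤ), y2), Q4.ne).1 v ∧
        DReach (↑F : Set Edg)ᶜ (face (((n:ℤ), y2), Q4.ne)) (face (v, q)))).card)
      (fun _ _ => Nat.zero_le _) (mem_univ Q4.ne))
    refine card_le_card ?_
    intro v hv
    rw [mem_filter] at hv
    have hvm := mem_Ws hv.1
    obtain ⟨h3, h4⟩ := comb_vertex ha hn hH hF hz hT hvm hv.2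
    have hl := Md_left hvm
    have hr := Md_right hvm
    obtain ⟨i, hi, hr1, hr2⟩ := hvm.row
    have hh := hH i hi
    unfold Db at hh
    simp only at hh
    have hy := ys_ge a i
    rw [mem_filter]
    refine ⟨?_, (hwr.symm.trans hwz).trans h3, ?_⟩
    · unfold Bx
      rw [mem_product, mem_Icc, mem_Icc]
      omega
    · rw [face_ne]
      have : face (v, Q4.ne) = v := rfl
      rw [this]
      exact h4 y2
  have h2 : Zc n a I F = (((Ws (Db (12 * a) n) a I).filter (fun v => RA v a (↑F))).card : ℝ) := by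
    unfold Zc
    rw [card_filter]
    push_cast
    refine sum_congr rfl fun v _ => ?_
    by_cases h : RA v a (↑F)
    · rw [ind_of h, if_pos h]
    · rw [ind_not_of h, if_neg h]
  rw [h2]
  have h3 := h1.trans key
  exact_mod_cast h3

end TH494.PT
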