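import Pool.Agent.TH494.PT.UpA

/-!
Upper tail of the perimeter of the largest cluster.
-/

set_option autoImplicit false

namespace TH494.PT

open H974 Finset Filter Topology H342P H984P H984N TH992.T

/-- the box as a domain -/
def Dn (n : ℕ) : Dm := ⟨0, n, n, 0⟩

theorem Dn_edges (n : ℕ) : (Dn n).edges = RE 0 n 0 n := rfl

theorem Dn_bd (n : ℕ) (v : Vtx) : (Dn n).bd v = bdist n v := by
  unfold Dm.bd bdist Dn
  simp only [sub_zero]

/-- disjoint squares in a grid are crossed independently -/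
theorem no_cross_grid (L : ℕ) (hL : 0 < L) (S : Finset Edg) (J : ℕ)
    (hS : ∀ i < J, ∀ j < J, LRE ((i:ℤ) * L) ((i:ℤ) * L + L) ((j:ℤ) * (L + 1))
      ((j:ℤ) * (L + 1) + L) ⊆ S) :
    Pr (fun _ => (1/2:ℝ)) S (fun F => ∀ i < J, ∀ j < J,
      ¬ LRc ((i:ℤ) * L) ((i:ℤ) * L + L) ((j:ℤ) * (L + 1)) ((j:ℤ) * (L + 1) + L) F) ≤
      (1/2) ^ (J * J) := by
  classical
  have hok : Ok (fun _ : Edg => (1/2:ℝ)) := fun _ => ⟨by norm_num, by norm_num⟩
  obtain ⟨I, hI⟩ : ∃ I : Finset (ℕ × ℕ), I = range J ×ˢ range J := ⟨_, rfl⟩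
  obtain ⟨T, hT⟩ : ∃ T : ℕ × ℕ → Finset Edg, T = fun q => LRE ((q.1:ℤ) * L) ((q.1:ℤ) * L + L)
    ((q.2:ℤ) * (L + 1)) ((q.2:ℤ) * (L + 1) + L) := ⟨_, rfl⟩
  obtain ⟨f, hf⟩ : ∃ f : ℕ × ℕ → Finset Edg → ℝ, f = fun q F => ind (¬ LRc ((q.1:ℤ) * L)
    ((q.1:ℤ) * L + L) ((q.2:ℤ) * (L + 1)) ((q.2:ℤ) * (L + 1) + L) F) := ⟨_, rfl⟩
  have hTS : ∀ q ∈ I, T q ⊆ S := by
    intro q hq
    rw [hI, mem_product, mem_range, mem_range] at hq
    rw [hT]
    exact hS q.1 hq.1 q.2 hq.2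
  have hLz : (0:ℤ) < L := by exact_mod_cast hL
  have hd : ∀ q ∈ I, ∀ r ∈ I, q ≠ r → Disjoint (T q) (T r) := by
    rintro ⟨i, j⟩ - ⟨i', j'⟩ - hne
    rw [disjoint_left, hT]
    rintro ⟨x, y, t⟩ h1 h2
    have key : ∀ (k k' : ℕ) (z w : ℤ), 0 < w → (k:ℤ) * w ≤ z → z < (k:ℤ) * w + w →
        (k':ℤ) * w ≤ z → z < (k':ℤ) * w + w → k = k' := by
      intro k k' z w hw a1 a2 a3 a4
      by_contra hk
      rcases Nat.lt_or_gt_of_ne hk with h | h
      · have : ((k:ℤ) + 1) * w ≤ (k':ℤ) * w :=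
          mul_le_mul_of_nonneg_right (by exact_mod_cast h) hw.le
        nlinarith
      · have : ((k':ℤ) + 1) * w ≤ (k:ℤ) * w :=
          mul_le_mul_of_nonneg_right (by exact_mod_cast h) hw.le
        nlinarith
    apply hne
    cases t
    · simp only [mem_LRE_false] at h1 h2
      have e1 := key i i' x L hLz (by omega) (by omega) (by omega) (by omega)
      have e2 := key j j' y (L + 1) (by omega) (by omega) (by omega) (by omega) (by omega)
      rw [e1, e2]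
    · simp only [mem_LRE_true] at h1 h2
      have e1 := key i i' x L hLz (by omega) (by omega) (by omega) (by omega)
      have e2 := key j j' y (L + 1) (by omega) (by omega) (by omega) (by omega) (by omega)
      rw [e1, e2]
  have hloc : ∀ q ∈ I, ∀ F, F ⊆ S → f q F = f q (F ∩ T q) := by
    intro q _ F _
    rw [hf]
    refine ind_congr (not_congr ?_)
    rw [hT]
    exact LRc_local (Finset.Subset.refl _)
  have h1 := Ex_prod_indep (p := fun _ : Edg => (1/2:ℝ)) (S := S) I T hTS hd f hloc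
  have h2 : Pr (fun _ => (1/2:ℝ)) S (fun F => ∀ i < J, ∀ j < J,
      ¬ LRc ((i:ℤ) * L) ((i:ℤ) * L + L) ((j:ℤ) * (L + 1)) ((j:ℤ) * (L + 1) + L) F) ≤
      Ex (fun _ => (1/2:ℝ)) S (fun F => ∏ q ∈ I, f q F) := by
    unfold Pr
    refine Ex_mono hok fun F _ => ?_
    by_cases h : ∀ i < J, ∀ j < J,
      ¬ LRc ((i:ℤ) * L) ((i:ℤ) * L + L) ((j:ℤ) * (L + 1)) ((j:ℤ) * (L + 1) + L) F
    · rw [ind_of h]
      refine le_of_eq (Eq.symm ?_)
      refine prod_eq_one fun q hq => ?_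
      rw [hI, mem_product, mem_range, mem_range] at hq
      rw [hf]
      exact ind_of (h q.1 hq.1 q.2 hq.2)
    · rw [ind_not_of h]
      refine prod_nonneg fun q _ => ?_
      rw [hf]
      exact ind_nonneg _
  refine h2.trans ?_
  rw [h1]
  have h3 : ∀ q ∈ I, Ex (fun _ => (1/2:ℝ)) S (f q) ≤ 1/2 := by
    intro q hq
    have hsub := hTS q hq
    rw [hT] at hsub
    have e : Ex (fun _ => (1/2:ℝ)) S (f q) = Pr (fun _ => (1/2:ℝ)) S (fun F => ¬ LRc ((q.1:ℤ) * L)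
      ((q.1:ℤ) * L + L) ((q.2:ℤ) * (L + 1)) ((q.2:ℤ) * (L + 1) + L) F) := by
      rw [hf]; rfl
    rw [e, Pr_not, pr_LRc _ hsub]
    have h3 := hh_square (L:ℤ) (by exact_mod_cast hL)
    have e1 : (q.1:ℤ) * L + L - (q.1:ℤ) * L = L := by ring
    have e2 : (q.2:ℤ) * (L + 1) + L - (q.2:ℤ) * (L + 1) = L := by ring
    rw [e1, e2]
    linarith
  have h4 : I.card = J * J := by rw [hI, card_product, card_range]
  rw [← h4, ← prod_const]
  refine prod_le_prod (fun q _ => ?_) h3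
  refine Ex_nonneg hok fun F _ => ?_
  rw [hf]
  exact ind_nonneg _

/-- The probability that there is no large cluster. -/
theorem pr_not_big2 {n L J : ℕ} (hL : 0 < L) {m : ℤ} (hm0 : 0 ≤ m) (hm : 3 * m ≤ L)
    (hJ : J * (L + 1) ≤ n + 1) (hJ1 : 1 ≤ J) :
    Pr (fun _ => (1/2:ℝ)) (RE 0 n 0 n) (fun F => ¬ Big n m (↑F)) ≤ (1/2) ^ (J * J) := by
  have hok : Ok (fun _ : Edg => (1/2:ℝ)) := fun _ => ⟨by norm_num, by norm_num⟩
  have hj : ∀ i < J, ((i:ℤ) * (L + 1) + L) ≤ n := by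
    intro i hi
    have h5 : ((i:ℤ) + 1) * (L + 1) ≤ (J:ℤ) * (L + 1) := by
      apply mul_le_mul_of_nonneg_right _ (by positivity)
      exact_mod_cast hi
    have h6 : (J:ℤ) * (L + 1) ≤ n + 1 := by exact_mod_cast hJ
    have h7 : ((i:ℤ) + 1) * (L + 1) = (i:ℤ) * (L + 1) + L + 1 := by ring
    omega
  have hi : ∀ i < J, ((i:ℤ) * L + L) ≤ n := by
    intro i hi
    have h1 := hj i hi
    have h2 : (i:ℤ) * (L + 1) = (i:ℤ) * L + i := by ring
    omega
  have hi0 : ∀ i : ℕ, 0 ≤ (i:ℤ) * (L + 1) := fun i => by positivity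
  have hi1 : ∀ i : ℕ, 0 ≤ (i:ℤ) * L := fun i => by positivity
  refine le_trans (Pr_mono hok ?_) (no_cross_grid L hL (RE 0 n 0 n) J ?_)
  · intro F _ hF i hiJ j hjJ h
    apply hF
    obtain ⟨y, y', h1, h2, h3⟩ := LRc_fst h
    have := hi i hiJ
    have := hj j hjJ
    have := hi0 j
    have := hi1 i
    refine ⟨((i:ℤ) * L, y), ((i:ℤ) * L + L, y'), ?_, ?_, h3, ?_⟩
    · unfold inR; simp only; omega
    · unfold inR; simp only; omega
    · unfold dsq
      simp only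
      have h8 : (3 * m) ^ 2 ≤ (L:ℤ) ^ 2 := pow_le_pow_left₀ (by omega) hm 2
      nlinarith [sq_nonneg (y - y'), sq_nonneg m]
  · intro i hiJ j hjJ e he
    have := hi i hiJ
    have := hj j hjJ
    have := hi0 j
    have := hi1 i
    obtain ⟨x, y, t⟩ := e
    cases t
    · rw [mem_LRE_false] at he; rw [mem_RE_false]; omega
    · rw [mem_LRE_true] at he; rw [mem_RE_true]; omega

theorem xs_term {D : Dm} {s : ℕ} {v : Vtx} {F : Finset Edg}
    (h : (D.l ≤ v.1 ∧ v.1 ≤ D.r) ∧ 0 ≤ v.2 ∧ v.2 ≤ D.h) {q q' : Q4} (hq : q ≠ q') :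
    ind (Two v (face (v, q)) (min (s : ℤ) (D.bd v)) (↑F)) +
      ind (Two v (face (v, q')) (min (s : ℤ) (D.bd v)) (↑F)) ≤ xs D s v F := by
  classical
  unfold xs
  have h1 : ∀ q : Q4, ind (Two v (face (v, q)) (min (s : ℤ) (D.bd v)) (↑F)) ≤
      (if (v, q) ∈ D.states then
    ind (min (s : ℤ) (D.bd v) ≤ 0 ∨ Two v (face (v, q)) (min (s : ℤ) (D.bd v)) (↑F)) else 0) := by
    intro q
    rw [if_pos (xs_mem' q h)]
    exact ind_mono Or.inr
  have h2 : ∑ q ∈ ({q, q'} : Finset Q4), (if (v, q) ∈ D.states then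
    ind (min (s : ℤ) (D.bd v) ≤ 0 ∨ Two v (face (v, q)) (min (s : ℤ) (D.bd v)) (↑F)) else 0) ≤
    ∑ q : Q4, (if (v, q) ∈ D.states then
    ind (min (s : ℤ) (D.bd v) ≤ 0 ∨ Two v (face (v, q)) (min (s : ℤ) (D.bd v)) (↑F)) else 0) := by
    refine sum_le_sum_of_subset_of_nonneg (subset_univ _) fun q _ _ => ?_
    split_ifs
    · exact ind_nonneg _
    · exact le_refl _
  rw [sum_pair hq] at h2
  have := h1 q
  have := h1 q'
  linarith

/-- the number of two-arm pairs is dominated by the family -/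
theorem NN_le (n r : ℕ) (F : Finset Edg) :
    NN n r (↑F) ≤ 2 * ∑ v ∈ Bq 0 0 (n + 1), xs (Dn n) r v F := by
  classical
  have hx0 : ∀ v, 0 ≤ xs (Dn n) r v F := by
    intro v
    unfold xs
    refine sum_nonneg fun q _ => ?_
    split_ifs
    · exact ind_nonneg _
    · exact le_refl _
  have h1 : NN n r (↑F) ≤ ∑ e ∈ RE 0 n 0 n, xs (Dn n) r (src e) F := by
    unfold NN
    refine sum_le_sum fun e he => ?_
    rw [← Dn_bd]
    obtain ⟨x, y, t⟩ := e
    cases t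
    · rw [mem_RE_false] at he
      have h := xs_term (D := Dn n) (s := r) (v := (x, y)) (F := F) (by
        unfold Dn; simp only; omega) (q := Q4.nw) (q' := Q4.ne) (by decide)
      simpa using h
    · rw [mem_RE_true] at he
      have h := xs_term (D := Dn n) (s := r) (v := (x, y)) (F := F) (by
        unfold Dn; simp only; omega) (q := Q4.se) (q' := Q4.ne) (by decide)
      simpa using h
  refine h1.trans ?_
  have h2 : ∑ e ∈ RE 0 n 0 n, xs (Dn n) r (src e) F ≤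
      ∑ e ∈ (Finset.Icc (0:ℤ) n) ×ˢ ((Finset.Icc (0:ℤ) n) ×ˢ (Finset.univ : Finset Bool)),
        xs (Dn n) r (src e) F := by
    refine sum_le_sum_of_subset_of_nonneg ?_ fun e _ _ => hx0 _
    unfold RE
    exact filter_subset _ _
  refine h2.trans (le_of_eq ?_)
  rw [sum_product, mul_sum]
  have e : Bq 0 0 (n + 1) = Finset.Icc (0:ℤ) n ×ˢ Finset.Icc (0:ℤ) n := by
    ext v
    rw [mem_Bq, mem_product, mem_Icc, mem_Icc]
    push_cast
    omega
  rw [e, sum_product]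
  refine sum_congr rfl fun i _ => ?_
  rw [sum_product]
  refine sum_congr rfl fun j _ => ?_
  simp only [Fintype.sum_bool, src_mk]
  ring

end TH494.PT
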