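import Pool.Agent.TH494.PT.LowC
import Pool.Agent.TH494.PT.UpB

/-!
Lower bound for the upper tail: moments.
-/

set_option autoImplicit false

namespace TH494.PT

open H974 Finset H342P H984P H984N TH992.T

theorem two_of_RA {v : Vtx} {a : ℕ} {F : Set Edg} (h : RA v a F) {m : ℤ} (hm : m ≤ 12 * a) :
    Two v (face (v, Q4.ne)) m F := by
  obtain ⟨⟨w, hw, h1⟩, g, hg, h2⟩ := h
  refine ⟨⟨w, ?_, h1.mono Set.inter_subset_left⟩, g, ?_, h2.mono ?_⟩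
  · unfold Far
    omega
  · unfold FarF inF
    omega
  · rintro e ⟨-, he⟩
    exact he

theorem Zc_le (n a I : ℕ) (F : Finset Edg) :
    Zc n a I F ≤ ∑ v ∈ Bq 0 0 (n + 1), xs (Dn n) a v F := by
  classical
  have hx0 : ∀ v, 0 ≤ xs (Dn n) a v F := by
    intro v
    unfold xs
    refine sum_nonneg fun q _ => ?_
    split_ifs
    · exact ind_nonneg _
    · exact le_refl _
  unfold Zc
  refine le_trans (sum_le_sum fun v hv => ?_) (sum_le_sum_of_subset_of_nonneg (?_ :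
    Ws (Db (12 * a) n) a I ⊆ Bq 0 0 (n + 1)) fun v _ _ => hx0 v)
  · have hv' := hv
    unfold Ws at hv
    rw [mem_filter, mem_product, mem_Icc, mem_Icc] at hv
    obtain ⟨⟨⟨b1, b2⟩, b3, b4⟩, -⟩ := hv
    unfold Db at b1 b2 b4
    simp only at b1 b2 b4
    have h1 : ind (RA v a (↑F)) ≤
        ind (Two v (face (v, Q4.ne)) (min (a : ℤ) ((Dn n).bd v)) (↑F)) :=
      ind_mono fun h => two_of_RA h (by omega)
    have h2 := xs_term (D := Dn n) (s := a) (v := v) (F := F) (by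
        unfold Dn; simp only; omega) (q := Q4.ne) (q' := Q4.nw) (by decide)
    have h3 := ind_nonneg (Two v (face (v, Q4.nw)) (min (a : ℤ) ((Dn n).bd v)) (↑F))
    linarith
  · intro v hv
    unfold Ws at hv
    rw [mem_filter, mem_product, mem_Icc, mem_Icc] at hv
    obtain ⟨⟨⟨b1, b2⟩, b3, b4⟩, -⟩ := hv
    unfold Db at b1 b2 b4
    simp only at b1 b2 b4
    rw [mem_Bq]
    push_cast
    omega

/-- second moment of the number of vertices with arms -/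
theorem Zc_sq {C : ℝ} (hC : 0 < C) (hU : TwoUp C (1/4)) : ∃ C' : ℝ, 0 < C' ∧
    ∀ n a I : ℕ, 1 ≤ a → a ≤ n →
      E (RE 0 n 0 n) (fun F => Zc n a I F ^ 2) ≤ C' * ((n : ℝ) ^ 4 * (a : ℝ) ^ (-(1/2) : ℝ)) := by
  obtain ⟨M, hM1, hM⟩ := exp_mom (a := 1/4) (C0 := 4 * (C + 1) * (1 + 8 * (1 + 1 / (1 - 1/4))))
    (by norm_num) (by norm_num) 4 (by positivity)
  refine ⟨648 * M, by linarith, fun n a I ha han => ?_⟩
  have haR : (1 : ℝ) ≤ a := by exact_mod_cast ha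
  have ha0 : (0 : ℝ) < a := by linarith
  have hanR : (a : ℝ) ≤ n := by exact_mod_cast han
  have hn0 : (0 : ℝ) < n := by linarith
  have hn1 : (1 : ℝ) ≤ n := by linarith
  obtain ⟨N, hN⟩ : ∃ N : ℕ, N = (n + 1) / a + 1 := ⟨_, rfl⟩
  have hN1 : n + 1 ≤ N * a := by
    rw [hN]
    have := Nat.lt_div_mul_add (a := n + 1) (b := a) (by omega)
    have e : ((n + 1) / a + 1) * a = (n + 1) / a * a + a := by ring
    omega
  have hN2 : (N : ℝ) ≤ 3 * ((n : ℝ) / a) := by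
    rw [hN]
    push_cast
    have h1 : (((n + 1) / a : ℕ) : ℝ) ≤ ((n + 1 : ℕ) : ℝ) / a := Nat.cast_div_le
    push_cast at h1
    have h2 : ((n : ℝ) + 1) / a ≤ 2 * ((n : ℝ) / a) := by
      rw [div_le_iff₀ ha0]
      have : 2 * ((n : ℝ) / a) * a = 2 * n := by field_simp
      rw [this]; linarith
    have h3 : 1 ≤ (n : ℝ) / a := by rw [le_div_iff₀ ha0]; linarith
    linarith
  have hfam := xs_fam hC hU (Dn n)
  rw [Dn_edges] at hfam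
  obtain ⟨G, hG⟩ : ∃ G : Finset (ℕ × ℕ), G = range N ×ˢ range N := ⟨_, rfl⟩
  have hGc : (G.card : ℝ) = (N : ℝ) * N := by
    rw [hG, card_product, card_range]; push_cast; ring
  obtain ⟨Y, hY⟩ : ∃ Y : ℕ × ℕ → Finset Edg → ℝ,
    Y = fun q F => Yb (1/4) (xs (Dn n)) a (0 + q.1 * (a : ℕ)) (0 + q.2 * (a : ℕ)) F := ⟨_, rfl⟩
  have hap : (0 : ℝ) < (a : ℝ) ^ (2 - 1/4 : ℝ) := Real.rpow_pos_of_pos ha0 _
  have hZ : ∀ F, Zc n a I F ≤ (a : ℝ) ^ (2 - 1/4 : ℝ) * ∑ q ∈ G, Y q F := by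
    intro F
    refine (Zc_le n a I F).trans ((sum_cover hfam ha hN1 0 0 F).trans (le_of_eq ?_))
    rw [mul_sum, hG, hY]
    refine sum_congr rfl fun q _ => ?_
    unfold Yb
    rw [mul_div_cancel₀ _ hap.ne']
  have hZ0 : ∀ F, 0 ≤ Zc n a I F := fun F => sum_nonneg fun _ _ => ind_nonneg _
  have hY0 : ∀ q F, 0 ≤ Y q F := fun q F => by rw [hY]; exact Yb_nonneg hfam _ _ _ _
  have hsq : ∀ F, Zc n a I F ^ 2 ≤ ((a : ℝ) ^ (2 - 1/4 : ℝ)) ^ 2 * ((N : ℝ) * N) *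
      ∑ q ∈ G, 8 * Real.exp (Y q F / 2) := by
    intro F
    have h1 : Zc n a I F ^ 2 ≤ ((a : ℝ) ^ (2 - 1/4 : ℝ) * ∑ q ∈ G, Y q F) ^ 2 :=
      pow_le_pow_left₀ (hZ0 F) (hZ F) 2
    rw [mul_pow] at h1
    have h2 : (∑ q ∈ G, Y q F) ^ 2 ≤ (G.card : ℝ) * ∑ q ∈ G, Y q F ^ 2 := sq_sum_le_card_mul_sum_sq
    rw [hGc] at h2
    have h3 : ∑ q ∈ G, Y q F ^ 2 ≤ ∑ q ∈ G, 8 * Real.exp (Y q F / 2) := by
      refine sum_le_sum fun q _ => ?_
      have h4 := Real.quadratic_le_exp_of_nonneg (show 0 ≤ Y q F / 2 by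
        have := hY0 q F; linarith)
      have := hY0 q F
      nlinarith
    calc Zc n a I F ^ 2 ≤ ((a : ℝ) ^ (2 - 1/4 : ℝ)) ^ 2 * (∑ q ∈ G, Y q F) ^ 2 := h1
      _ ≤ ((a : ℝ) ^ (2 - 1/4 : ℝ)) ^ 2 * (((N : ℝ) * N) * ∑ q ∈ G, 8 * Real.exp (Y q F / 2)) := by
          refine mul_le_mul_of_nonneg_left (h2.trans ?_) (by positivity)
          exact mul_le_mul_of_nonneg_left h3 (by positivity)
      _ = _ := by ring
  have hE : E (RE 0 n 0 n) (fun F => Zc n a I F ^ 2) ≤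
      ((a : ℝ) ^ (2 - 1/4 : ℝ)) ^ 2 * ((N : ℝ) * N) * (((N : ℝ) * N) * (8 * M)) := by
    unfold E
    refine (Ex_mono two_ok fun F _ => hsq F).trans ?_
    rw [Ex_mul_left, Ex_sum]
    refine mul_le_mul_of_nonneg_left ?_ (by positivity)
    rw [← hGc, ← nsmul_eq_mul]
    refine sum_le_card_nsmul _ _ _ fun q _ => ?_
    rw [Ex_mul_left]
    refine mul_le_mul_of_nonneg_left ?_ (by norm_num)
    rw [hY]
    exact hM _ _ _ hfam a _ _ ha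
  refine hE.trans ?_
  have e1 : ((a : ℝ) ^ (2 - 1/4 : ℝ)) ^ 2 = (a : ℝ) ^ (-(1/2) : ℝ) * (a : ℝ) ^ 4 := by
    rw [← Real.rpow_natCast, ← Real.rpow_natCast, ← Real.rpow_mul ha0.le, ← Real.rpow_add ha0]
    norm_num
  have h4 : ((N : ℝ) * N) * ((N : ℝ) * N) ≤ 81 * ((n : ℝ) / a) ^ 4 := by
    have h5 : (N : ℝ) ^ 4 ≤ (3 * ((n : ℝ) / a)) ^ 4 := pow_le_pow_left₀ (Nat.cast_nonneg _) hN2 4
    calc ((N : ℝ) * N) * ((N : ℝ) * N) = (N : ℝ) ^ 4 := by ring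
      _ ≤ (3 * ((n : ℝ) / a)) ^ 4 := h5
      _ = _ := by ring
  have e2 : (a : ℝ) ^ 4 * ((n : ℝ) / a) ^ 4 = (n : ℝ) ^ 4 := by
    rw [div_pow]; field_simp
  have hA : 0 < (a : ℝ) ^ (-(1/2) : ℝ) := Real.rpow_pos_of_pos ha0 _
  rw [e1]
  calc (a : ℝ) ^ (-(1/2) : ℝ) * (a : ℝ) ^ 4 * ((N : ℝ) * N) * ((N : ℝ) * N * (8 * M))
      = ((a : ℝ) ^ (-(1/2) : ℝ) * (a : ℝ) ^ 4 * (8 * M)) * (((N : ℝ) * N) * ((N : ℝ) * N)) := by ring
    _ ≤ ((a : ℝ) ^ (-(1/2) : ℝ) * (a : ℝ) ^ 4 * (8 * M)) * (81 * ((n : ℝ) / a) ^ 4) :=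
        mul_le_mul_of_nonneg_left h4 (by positivity)
    _ = 648 * M * ((a : ℝ) ^ 4 * ((n : ℝ) / a) ^ 4 * (a : ℝ) ^ (-(1/2) : ℝ)) := by ring
    _ = _ := by rw [e2]

/-- the event that all clusters of largest diameter have a large perimeter -/
def PerBig (n : ℕ) (t : ℝ) (F : Finset Edg) : Prop :=
  ∀ w, IsMax n (↑F) w → t ≤ 8 * (per n (↑F) w : ℝ)

/-- Paley–Zygmund with a comb -/
theorem pz_comb {c : ℝ} (hc : 0 < c) (hL : LowA c (1/4)) {n a I : ℕ}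
    (ha : 1 ≤ a) (hn : 200 * a ≤ n) (hH : Hg n a I) (hI : 3 ≤ I)
    (hI2 : (n : ℤ) ≤ ys a (I - 1) + 75 * a) {M2 w : ℝ} (hw0 : 0 ≤ w)
    (hw : w ≤ ((Ws (Db (12 * a) n) a I).card : ℝ))
    (hM : E (RE 0 n 0 n) (fun F => Zc n a I F ^ 2) ≤ M2) {q : ℝ} (hq0 : 0 ≤ q)
    (hq : q ≤ P (RE 0 n 0 n) (Cmb n a I) * P (RE 0 n 0 n) (TBd n a I)) :
    (w * (c * (a:ℝ) ^ (-(1/4) : ℝ)) / 2 * q) ^ 2 ≤ M2 *
      P (RE 0 n 0 n) (PerBig n (w * (c * (a:ℝ) ^ (-(1/4) : ℝ)) / 2)) := by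
  classical
  obtain ⟨μ, hμ⟩ : ∃ μ : ℝ, μ = w * (c * (a:ℝ) ^ (-(1/4) : ℝ)) := ⟨_, rfl⟩
  have hμ0 : 0 ≤ μ := by rw [hμ]; positivity
  rw [← hμ]
  obtain ⟨Q, hQ⟩ : ∃ Q : ℝ, Q = P (RE 0 n 0 n) (Cmb n a I) * P (RE 0 n 0 n) (TBd n a I) := ⟨_, rfl⟩
  rw [← hQ] at hq
  have hQ0 : 0 ≤ Q := hq0.trans hq
  have hT : P (RE 0 n 0 n) (fun F => Cmb n a I F ∧ TBd n a I F) = Q := by
    rw [hQ]
    exact comb_indep ha hH (by omega)
  obtain ⟨NT, hNT⟩ : ∃ NT : Finset Edg → ℝ, NT = fun F : Finset Edg =>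
    ∑ v ∈ Ws (Db (12 * a) n) a I,
      ind (RA v a (↑F : Set Edg) ∧ (Cmb n a I F ∧ TBd n a I F)) := ⟨_, rfl⟩
  have h1 : μ * Q ≤ E (RE 0 n 0 n) NT := by
    rw [hNT]
    unfold E
    rw [Ex_sum]
    have h2 : μ * Q ≤ ((Ws (Db (12 * a) n) a I).card : ℝ) * ((c * (a:ℝ) ^ (-(1/4) : ℝ)) * Q) := by
      rw [hμ, mul_assoc]
      exact mul_le_mul_of_nonneg_right hw (by positivity)
    refine h2.trans ?_
    rw [← nsmul_eq_mul, ← sum_const]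
    refine sum_le_sum fun v hv => ?_
    have hvm := mem_Ws hv
    refine le_trans ?_ (comb_harris ha hH (by omega) hvm)
    rw [hQ]
    exact mul_le_mul_of_nonneg_right (ra_ge2 hL ha hH hvm)
      (mul_nonneg (Pr_nonneg two_ok _ _) (Pr_nonneg two_ok _ _))
  have h2 : E (RE 0 n 0 n) NT ≤ μ / 2 * Q +
      E (RE 0 n 0 n) (fun F => Zc n a I F * ind (PerBig n (μ / 2) F)) := by
    rw [← hT]
    unfold P Pr E
    rw [← Ex_mul_left, ← Ex_add]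
    refine Ex_mono two_ok fun F hF => ?_
    rw [hNT]
    have hZ0 : 0 ≤ Zc n a I F := sum_nonneg fun _ _ => ind_nonneg _
    have hib := ind_nonneg (PerBig n (μ / 2) F)
    have hig := ind_nonneg (Cmb n a I F ∧ TBd n a I F)
    by_cases hG : Cmb n a I F ∧ TBd n a I F
    · have g1 : ∑ v ∈ Ws (Db (12 * a) n) a I, ind (RA v a (↑F) ∧ (Cmb n a I F ∧ TBd n a I F)) ≤
          Zc n a I F := by
        unfold Zc
        exact sum_le_sum fun v _ => ind_mono fun h => h.1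
      rw [ind_of hG]
      by_cases hB : PerBig n (μ / 2) F
      · rw [ind_of hB]
        simp only
        linarith
      · rw [ind_not_of hB]
        unfold PerBig at hB
        push Not at hB
        obtain ⟨w', hw', hlt⟩ := hB
        have g2 := comb_per ha hn hH hI hI2 hF hG.1 hG.2 hw'
        simp only
        linarith
    · have g1 : ∑ v ∈ Ws (Db (12 * a) n) a I, ind (RA v a (↑F) ∧ (Cmb n a I F ∧ TBd n a I F)) =
          0 := sum_eq_zero fun v _ => ind_not_of fun h' => hG h'.2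
      rw [ind_not_of hG]
      simp only
      rw [g1]
      positivity
  have h3 : μ / 2 * Q ≤
      E (RE 0 n 0 n) (fun F => Zc n a I F * ind (PerBig n (μ / 2) F)) := by linarith
  have h4 := Ex_cs two_ok (RE 0 n 0 n) (fun F => Zc n a I F)
    (fun F => ind (PerBig n (μ / 2) F))
  have h5 : Ex (fun _ => (1/2:ℝ)) (RE 0 n 0 n) (fun F => (ind (PerBig n (μ / 2) F)) ^ 2) =
      P (RE 0 n 0 n) (PerBig n (μ / 2)) := by
    unfold P Pr
    refine Ex_congr fun F _ => ?_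
    rw [sq, ind_sq]
  rw [h5] at h4
  have h6 : μ / 2 * q ≤ μ / 2 * Q := mul_le_mul_of_nonneg_left hq (by linarith)
  calc (μ / 2 * q) ^ 2 ≤ (E (RE 0 n 0 n) (fun F => Zc n a I F *
        ind (PerBig n (μ / 2) F))) ^ 2 := by
        apply pow_le_pow_left₀ (by positivity) (h6.trans h3)
    _ ≤ _ := h4
    _ ≤ _ := mul_le_mul_of_nonneg_right hM (Pr_nonneg two_ok _ _)

end TH494.PT
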