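import Pool.Agent.TH494.PT.UpB

/-!
Upper tail of the perimeter of the largest cluster: the final bound.
-/

set_option autoImplicit false

namespace TH494.PT

open H974 Finset Filter Topology H342P H984P H984N TH992.T

theorem card_RE (n : ℕ) : ((RE 0 n 0 n).card : ℝ) ≤ 2 * ((n : ℝ) + 1) ^ 2 := by
  have h1 : (RE 0 n 0 n).card ≤
      ((Finset.Icc (0:ℤ) n) ×ˢ ((Finset.Icc (0:ℤ) n) ×ˢ (Finset.univ : Finset Bool))).card := by
    unfold RE
    exact card_filter_le _ _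
  rw [card_product, card_product, Int.card_Icc, card_univ, Fintype.card_bool] at h1
  have e : ((n:ℤ) + 1 - 0).toNat = n + 1 := by omega
  rw [e] at h1
  have h2 : ((RE 0 n 0 n).card : ℝ) ≤ (((n + 1) * ((n + 1) * 2) : ℕ) : ℝ) := by exact_mod_cast h1
  push_cast at h2
  linarith

theorem per_max (n : ℕ) (F : Set Edg) (v : Vtx) : (per n F v : ℝ) ≤ 4 * ((n : ℝ) + 1) ^ 2 := by
  classical
  have h1 : per n F v ≤ ∑ _e ∈ RE 0 n 0 n, 2 := by
    unfold per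
    refine sum_le_sum fun e _ => ?_
    split_ifs <;> simp
  rw [sum_const, smul_eq_mul] at h1
  have h2 : (per n F v : ℝ) ≤ (((RE 0 n 0 n).card * 2 : ℕ) : ℝ) := by exact_mod_cast h1
  push_cast at h2
  have := card_RE n
  linarith

/-- upper tail of the perimeter -/
theorem up_tail {C : ℝ} (hC : 0 < C) (hU : TwoUp C (1/4)) : ∃ c1 C1 : ℝ, 0 < c1 ∧ 0 < C1 ∧
    ∀ n : ℕ, 1 ≤ n → ∀ x : ℝ, 0 ≤ x →
      Pr (fun _ => (1/2:ℝ)) (RE 0 n 0 n)
        (fun F => ∃ v, IsMax n (↑F) v ∧ x * (n : ℝ) ^ (7/4 : ℝ) ≤ (per n (↑F) v : ℝ)) ≤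
        C1 * Real.exp (-(c1 * x ^ 8)) := by
  have hok : Ok (fun _ : Edg => (1/2:ℝ)) := fun _ => ⟨by norm_num, by norm_num⟩
  obtain ⟨l, hl1, hlB, h⟩ := tail_sum (a := 1/4)
    (C0 := 4 * (C + 1) * (1 + 8 * (1 + 1 / (1 - 1/4))))
    (by norm_num) (by norm_num) 4 (by positivity)
  have hl0 : 0 < l := by linarith
  obtain ⟨c1, hc1⟩ : ∃ c1 : ℝ, c1 = (1 / 128) * (1 / (8 * l)) ^ 8 := ⟨_, rfl⟩
  have hc10 : 0 < c1 := by rw [hc1]; positivity
  refine ⟨c1, max 10 (Real.exp (c1 * (24 * l) ^ 8)), hc10,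
    lt_of_lt_of_le (by norm_num) (le_max_left _ _), fun n hn x hx => ?_⟩
  have hn0 : (0 : ℝ) < n := by exact_mod_cast hn
  have hn1 : (1 : ℝ) ≤ n := by exact_mod_cast hn
  rcases le_or_gt x (24 * l) with hxs | hxl
  · -- small x
    refine (Pr_le_one hok _ _).trans ?_
    have h1 : x ^ 8 ≤ (24 * l) ^ 8 := pow_le_pow_left₀ hx hxs 8
    calc (1 : ℝ) = Real.exp (c1 * (24 * l) ^ 8) * Real.exp (-(c1 * (24 * l) ^ 8)) := by
          rw [← Real.exp_add]; simp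
      _ ≤ max 10 (Real.exp (c1 * (24 * l) ^ 8)) * Real.exp (-(c1 * x ^ 8)) := by
          refine mul_le_mul (le_max_right _ _) (Real.exp_le_exp.mpr ?_) (Real.exp_pos _).le
            (le_trans (by norm_num) (le_max_left _ _))
          have := mul_le_mul_of_nonneg_left h1 hc10.le
          linarith
  obtain ⟨u, hu⟩ : ∃ u : ℝ, u = x / 8 := ⟨_, rfl⟩
  have hu3 : 3 * l < u := by rw [hu]; linarith
  obtain ⟨K, hK1, hKe, hK2, hK3, hK4⟩ := choice (a := 1/4) (by norm_num) (by norm_num) hl1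
    (show l ≤ u by linarith)
  have e4 : (1 / (1/4) : ℝ) = ((4 : ℕ) : ℝ) := by norm_num
  have e8 : (2 / (1/4) : ℝ) = ((8 : ℕ) : ℝ) := by norm_num
  rw [e4, Real.rpow_natCast] at hK2 hKe
  rw [e8, Real.rpow_natCast] at hK3
  have hul : 3 < u / l := by rw [lt_div_iff₀ hl0]; linarith
  have hK81 : 81 ≤ K := by
    have h1 : (81 : ℝ) ≤ (u / l) ^ 4 := by
      calc (81 : ℝ) = 3 ^ 4 := by norm_num
        _ ≤ (u / l) ^ 4 := pow_le_pow_left₀ (by norm_num) hul.le 4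
    have h2 : (81 : ℝ) ≤ K := by
      rw [hKe]
      exact h1.trans (Nat.le_ceil _)
    exact_mod_cast h2
  have hKR : (81 : ℝ) ≤ K := by exact_mod_cast hK81
  obtain ⟨s, hs⟩ : ∃ s : ℕ, s = n + 1 := ⟨_, rfl⟩
  have hsR : (s : ℝ) = n + 1 := by rw [hs]; push_cast; ring
  have hs1 : (1 : ℝ) ≤ s := by rw [hsR]; linarith
  have hs0 : (0 : ℝ) < s := by linarith
  have hs2 : (s : ℝ) ≤ 2 * n := by rw [hsR]; linarith
  have hs74 : (s : ℝ) ^ (7/4 : ℝ) ≤ 4 * (n : ℝ) ^ (7/4 : ℝ) := by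
    calc (s : ℝ) ^ (7/4 : ℝ) ≤ (2 * n) ^ (7/4 : ℝ) := Real.rpow_le_rpow hs0.le hs2 (by norm_num)
      _ = 2 ^ (7/4 : ℝ) * (n : ℝ) ^ (7/4 : ℝ) := Real.mul_rpow (by norm_num) (by linarith)
      _ ≤ 4 * (n : ℝ) ^ (7/4 : ℝ) := by
        refine mul_le_mul_of_nonneg_right ?_ (Real.rpow_nonneg (by linarith) _)
        calc (2 : ℝ) ^ (7/4 : ℝ) ≤ 2 ^ (2 : ℝ) :=
              Real.rpow_le_rpow_of_exponent_le (by norm_num) (by norm_num)
          _ = 4 := by norm_num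
  have hn74 : 0 < (n : ℝ) ^ (7/4 : ℝ) := Real.rpow_pos_of_pos hn0 _
  have hfin : 0 ≤ max 10 (Real.exp (c1 * (24 * l) ^ 8)) * Real.exp (-(c1 * x ^ 8)) := by
    have := Real.exp_pos (-(c1 * x ^ 8))
    have h2 : (0:ℝ) ≤ max 10 (Real.exp (c1 * (24 * l) ^ 8)) :=
      le_trans (by norm_num) (le_max_left _ _)
    positivity
  rcases Nat.lt_or_ge s K with hlt | hge
  · -- the perimeter cannot be so large
    refine le_trans ?_ hfin
    unfold Pr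
    refine Ex_le_of_le hok fun F _ => ?_
    rw [ind_not_of]
    rintro ⟨v, -, hv⟩
    rw [hKe, Nat.lt_ceil] at hlt
    have h1 := hv.trans (per_max n (↑F) v)
    rw [← hsR] at h1
    have h2 : (s : ℝ) ^ (1/4 : ℝ) < u / l := by
      calc (s : ℝ) ^ (1/4 : ℝ) < ((u / l) ^ 4) ^ (1/4 : ℝ) :=
            Real.rpow_lt_rpow hs0.le hlt (by norm_num)
        _ = u / l := by
          rw [← Real.rpow_natCast, ← Real.rpow_mul (by linarith)]; norm_num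
    rw [lt_div_iff₀ hl0] at h2
    have h3 : (s : ℝ) ^ 2 = (s : ℝ) ^ (1/4 : ℝ) * (s : ℝ) ^ (7/4 : ℝ) := by
      rw [← Real.rpow_add hs0, ← Real.rpow_natCast]; norm_num
    have h4 : 0 < (s : ℝ) ^ (1/4 : ℝ) := Real.rpow_pos_of_pos hs0 _
    have h5 : (s : ℝ) ^ (1/4 : ℝ) * (s : ℝ) ^ (7/4 : ℝ) ≤
        (s : ℝ) ^ (1/4 : ℝ) * (4 * (n : ℝ) ^ (7/4 : ℝ)) := mul_le_mul_of_nonneg_left hs74 h4.le
    have h6 : x = 8 * u := by rw [hu]; ring
    rw [h3, h6] at h1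
    have h7 : 8 * u * (n : ℝ) ^ (7/4 : ℝ) ≤ 16 * (s : ℝ) ^ (1/4 : ℝ) * (n : ℝ) ^ (7/4 : ℝ) := by
      linarith
    have h8 := le_of_mul_le_mul_right h7 hn74
    nlinarith
  -- K ≤ s
  obtain ⟨r, hr⟩ : ∃ r : ℕ, r = s / K := ⟨_, rfl⟩
  obtain ⟨s1, s2, s3, s4⟩ := side hK1 hge
  rw [← hr] at s1 s2 s3 s4
  -- Big
  have hJ : K / 4 * (3 * r + 1) ≤ n + 1 := by
    have h1 : K / 4 * (3 * r + 1) ≤ K / 4 * (4 * r) := Nat.mul_le_mul_left _ (by omega)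
    have h2 : K / 4 * 4 ≤ K := Nat.div_mul_le_self _ _
    have h3 : K / 4 * (4 * r) = (K / 4 * 4) * r := by ring
    have h4 : (K / 4 * 4) * r ≤ K * r := Nat.mul_le_mul_right _ h2
    omega
  have hbig := pr_not_big2 (n := n) (L := 3 * r) (J := K / 4) (m := (r : ℤ)) (by omega)
    (by positivity) (by push_cast; exact le_refl _) (by exact_mod_cast hJ) (by omega)
  have hbig2 : ((1:ℝ)/2) ^ (K / 4 * (K / 4)) ≤ Real.exp (-((1/128) * ((K:ℝ) * K))) := by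
    have h1 : (K:ℝ) / 8 ≤ ((K / 4 : ℕ) : ℝ) := by
      have h2 : K ≤ 8 * (K / 4) := by omega
      have h3 : (K:ℝ) ≤ 8 * ((K / 4 : ℕ) : ℝ) := by exact_mod_cast h2
      linarith
    have h2 : ((K:ℝ) * K) / 64 ≤ ((K / 4 * (K / 4) : ℕ) : ℝ) := by
      push_cast
      nlinarith
    have h3 : ((1:ℝ)/2) ^ (K / 4 * (K / 4)) =
        Real.exp (-(((K / 4 * (K / 4) : ℕ) : ℝ) * Real.log 2)) := by
      rw [← mul_neg, Real.exp_nat_mul, Real.exp_neg, Real.exp_log (by norm_num)]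
      norm_num
    rw [h3]
    refine Real.exp_le_exp.mpr ?_
    have h4 : (1/2 : ℝ) ≤ Real.log 2 := by
      have := Real.log_two_gt_d9
      linarith
    have h5 : ((K:ℝ) * K) / 64 * (1/2) ≤ ((K / 4 * (K / 4) : ℕ) : ℝ) * Real.log 2 :=
      mul_le_mul h2 h4 (by norm_num) (Nat.cast_nonneg _)
    linarith
  -- the number
  have key := h (fun _ => (1/2:ℝ)) (Dn n).edges (xs (Dn n)) (xs_fam hC hU (Dn n)) s K 0 0 u
    hK1 hge hK4
  rw [← hr, Dn_edges, show (2 - 1/4 : ℝ) = 7/4 by norm_num] at key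
  have hev : Pr (fun _ => (1/2:ℝ)) (RE 0 n 0 n)
        (fun F => ∃ v, IsMax n (↑F) v ∧ x * (n : ℝ) ^ (7/4 : ℝ) ≤ (per n (↑F) v : ℝ)) ≤
      Pr (fun _ => (1/2:ℝ)) (RE 0 n 0 n) (fun F => (¬ Big n r (↑F)) ∨
        u * (s : ℝ) ^ (7/4 : ℝ) ≤ ∑ v ∈ Bq 0 0 s, xs (Dn n) r v F) := by
    refine Pr_mono hok fun F _ hF => ?_
    obtain ⟨v, hv, hv2⟩ := hF
    by_cases hb : Big n r (↑F)
    · right
      have h1 := hv2.trans ((per_le hv hb).trans (NN_le n r F))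
      rw [← hs] at h1
      have h2 : u * (s : ℝ) ^ (7/4 : ℝ) ≤ u * (4 * (n : ℝ) ^ (7/4 : ℝ)) :=
        mul_le_mul_of_nonneg_left hs74 (by rw [hu]; linarith)
      have h3 : x = 8 * u := by rw [hu]; ring
      rw [h3] at h1
      linarith
    · left; exact hb
  refine hev.trans ((Pr_or_le hok _ _ _).trans ((add_le_add (hbig.trans hbig2) key).trans ?_))
  have h1 : c1 * x ^ 8 ≤ (1/128) * ((K:ℝ) * K) := by
    have h2 : c1 * x ^ 8 = (1/128) * (u / l) ^ 8 := by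
      rw [hc1, hu, mul_assoc, ← mul_pow]
      congr 2
      field_simp
    rw [h2]
    exact mul_le_mul_of_nonneg_left hK3 (by norm_num)
  have h2 : Real.exp (-((1/128) * ((K:ℝ) * K))) ≤ Real.exp (-(c1 * x ^ 8)) :=
    Real.exp_le_exp.mpr (by linarith)
  have h3 : Real.exp (-((K:ℝ) * K)) ≤ Real.exp (-(c1 * x ^ 8)) := by
    refine Real.exp_le_exp.mpr ?_
    have : 0 ≤ (K:ℝ) * K := by positivity
    linarith
  calc Real.exp (-((1/128) * ((K:ℝ) * K))) + 9 * Real.exp (-((K:ℝ) * K))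
      ≤ 10 * Real.exp (-(c1 * x ^ 8)) := by linarith
    _ ≤ _ := mul_le_mul_of_nonneg_right (le_max_left _ _) (Real.exp_pos _).le

end TH494.PT
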