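import Pool.Agent.TH494.PT.LowD
import Pool.Agent.TH494.PT.UpC
import Pool.Agent.TH992.T.Low4

/-!
Lower bound for the upper tail of the perimeter.
-/

set_option autoImplicit false

namespace TH494.PT

open H974 Finset H342P H984P H984N TH992.T

/-- the probability of the open part of the comb -/
theorem cmb_pr {n a I m : ℕ} (ha : 1 ≤ a) (hn : 200 * a ≤ n) (hH : Hg n a I)
    (hm : (n : ℤ) ≤ 8 * (4 * (a : ℤ)) * m + 8 * (4 * (a : ℤ))) :
    q0 ^ ((2 * m + 1) * (2 * I + 1)) ≤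
      P (RE 0 n 0 n) (Cmb n a I) * P (RE 0 n 0 n) (TBd n a I) := by
  have ok : Ok (fun _ : Edg => (1/2:ℝ)) := okq (by norm_num) (by norm_num)
  have ha' : (1 : ℤ) ≤ a := by exact_mod_cast ha
  have hn' : 200 * (a : ℤ) ≤ n := by exact_mod_cast hn
  have hn4 : 4 * a ≤ n := by omega
  have s1 := strips (S := RE 0 n 0 n) (l := 0) (r := n) (h := 4 * a) (m := m) (by omega) (by omega)
    (by omega) (ys a) I (fun i hi e he =>
      T1_sub hH hn4 (mem_T1.mpr (Or.inl ⟨i, hi, he⟩)))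
  have s2 := dstrips (S := RE 0 n 0 n) (l := 8 * a) (r := n) (h := 4 * a) (m := m) (by omega)
    (by omega) (by omega) (fun i => ys a i + 16 * a) I (fun i hi e he => by
      rw [mem_dmp]
      refine T2_sub ha hH (mem_T2.mpr ⟨i, hi, ?_⟩)
      rw [Equiv.apply_symm_apply]
      exact he)
  have s3 : q0 ^ (2 * m + 1) ≤ Pr (fun _ => (1/2:ℝ)) (RE 0 n 0 n) (TBc 0 (4 * a) 0 n) := by
    rw [pr_TBc _ (fun e he => T1_sub (I := I) hH hn4 (mem_T1.mpr (Or.inr he)))]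
    have e1 : (n : ℤ) - 0 = n := by ring
    have e2 : 4 * (a : ℤ) - 0 = 4 * a := by ring
    rw [e1, e2]
    exact hh_wide (by omega) (by omega) hm
  have h2 := Pr_harris ok (S := RE 0 n 0 n) (A := TA (Db 0 n) a I) (B := TBc 0 (4 * a) 0 n)
    (fun F G h _ hF i hi => (hF i hi).mono h) (TBc_incr _ _ _ _ _)
  have hq := q0_pos
  have h3 : q0 ^ ((2 * m + 1) * I) * q0 ^ (2 * m + 1) ≤ P (RE 0 n 0 n) (Cmb n a I) :=
    (mul_le_mul s1 s3 (pow_nonneg hq.le _) ((pow_nonneg hq.le _).trans s1)).trans h2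
  have e : q0 ^ ((2 * m + 1) * (2 * I + 1)) =
      (q0 ^ ((2 * m + 1) * I) * q0 ^ (2 * m + 1)) * q0 ^ ((2 * m + 1) * I) := by
    rw [← pow_add, ← pow_add]; congr 1; ring
  rw [e]
  exact mul_le_mul h3 s2 (pow_nonneg hq.le _) (le_trans (by positivity) h3)

/-- The perimeter is large with a probability which is not too small, at scale `a`. -/
theorem per_low {c : ℝ} (hc : 0 < c) (hL : LowA c (1/4)) {C : ℝ} (hC : 0 < C)
    (hU : TwoUp C (1/4)) :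
    ∃ c1 K1 : ℝ, 0 < c1 ∧ 0 < K1 ∧ ∀ n a : ℕ, 1 ≤ a → 200 * a ≤ n →
      Real.exp (-(K1 * ((n : ℝ) / a) ^ 2)) ≤
        P (RE 0 n 0 n) (PerBig n (c1 * ((n : ℝ) ^ 2 * (a : ℝ) ^ (-(1/4) : ℝ)))) := by
  obtain ⟨C', hC', hsq⟩ := Zc_sq hC hU
  obtain ⟨c1, hc1⟩ : ∃ c1 : ℝ, c1 = c / 50 := ⟨_, rfl⟩
  have hc10 : 0 < c1 := by rw [hc1]; positivity
  have hcc : 0 < c1 ^ 2 / C' := by positivity
  refine ⟨c1, |Real.log (c1 ^ 2 / C')| + (1 - 8 * Real.log q0), hc10, by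
    have := log_q0
    have := abs_nonneg (Real.log (c1 ^ 2 / C'))
    linarith, ?_⟩
  intro n a ha hn
  have haR : (1 : ℝ) ≤ a := by exact_mod_cast ha
  have ha0 : (0 : ℝ) < a := by linarith
  have hnR : 200 * (a : ℝ) ≤ n := by exact_mod_cast hn
  have hn0 : (0 : ℝ) < n := by linarith
  obtain ⟨I, hI⟩ : ∃ I : ℕ, I = n / (40 * a) := ⟨_, rfl⟩
  have hI1 : 40 * a * I ≤ n := by rw [hI]; exact Nat.mul_div_le _ _
  have hI2 : n < 40 * a * (I + 1) := by rw [hI]; exact Nat.lt_mul_div_succ _ (by omega)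
  have hI3 : 3 ≤ I := by
    by_contra hcon
    have h1 : 40 * a * (I + 1) ≤ 40 * a * 3 := Nat.mul_le_mul_left _ (by omega)
    omega
  have hH : Hg n a I := by
    intro i hi
    unfold ys Db
    simp only
    have h1 : 40 * a * (i + 1) ≤ 40 * a * I := Nat.mul_le_mul_left _ hi
    have h2 : 40 * a * (i + 1) = 40 * a * i + 40 * a := by ring
    have h3 : 40 * a * i + 5 * a + 30 * a ≤ n := by omega
    exact_mod_cast h3
  have hI4 : (n : ℤ) ≤ ys a (I - 1) + 75 * a := by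
    unfold ys
    have h1 : 40 * a * (I - 1 + 1 + 1) = 40 * a * (I - 1) + 80 * a := by ring
    have h2 : I - 1 + 1 = I := by omega
    rw [h2] at h1
    have h3 : n ≤ 40 * a * (I - 1) + 5 * a + 75 * a := by omega
    exact_mod_cast h3
  have hI1' : 40 * (a : ℝ) * I ≤ n := by exact_mod_cast hI1
  have hI2' : (n : ℝ) ≤ 40 * (a : ℝ) * (I + 1) := by exact_mod_cast hI2.le
  -- the vertices
  obtain ⟨n1, hn1⟩ : ∃ n1 : ℕ, n1 = n - 38 * a := ⟨_, rfl⟩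
  have hn1c : ((n1 : ℕ) : ℤ) = n - 38 * a := by rw [hn1]; push_cast [show 38 * a ≤ n by omega]; ring
  have hn1r : (n1 : ℝ) = (n : ℝ) - 38 * a := by exact_mod_cast hn1c
  have hcard := card_Ws (D := Db (12 * a) n) ha hH (n1 := n1) (by
    unfold Db; simp only; omega)
  have hcard' : (n : ℝ) ^ 2 / 25 ≤ ((Ws (Db (12 * a) n) a I).card : ℝ) := by
    have h1 : ((n1 * (I * (4 * a)) : ℕ) : ℝ) ≤ ((Ws (Db (12 * a) n) a I).card : ℝ) := by
      exact_mod_cast hcard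
    push_cast at h1
    have h2 : (n : ℝ) * (2/25) ≤ (I : ℝ) * (4 * a) := by linarith
    have h3 : (n : ℝ) / 2 ≤ n1 := by rw [hn1r]; linarith
    have h4 : ((n : ℝ) / 2) * ((n : ℝ) * (2/25)) ≤ (n1 : ℝ) * ((I : ℝ) * (4 * a)) :=
      mul_le_mul h3 h2 (by positivity) (Nat.cast_nonneg _)
    have e : (n : ℝ) ^ 2 / 25 = ((n : ℝ) / 2) * ((n : ℝ) * (2/25)) := by ring
    rw [e]
    linarith
  -- the strips
  obtain ⟨m, hm⟩ : ∃ m : ℕ, m = ⌊(n : ℝ) / (32 * a)⌋₊ := ⟨_, rfl⟩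
  have hm1 : (m : ℝ) ≤ n / (32 * a) := by rw [hm]; exact Nat.floor_le (by positivity)
  have hm2 : (n : ℝ) / (32 * a) < m + 1 := by rw [hm]; exact Nat.lt_floor_add_one _
  have hmr : (n : ℤ) ≤ 8 * (4 * (a : ℤ)) * m + 8 * (4 * (a : ℤ)) := by
    rw [div_lt_iff₀ (by positivity)] at hm2
    have h1 : (n : ℝ) ≤ 8 * (4 * (a : ℝ)) * m + 8 * (4 * (a : ℝ)) := by
      linarith
    exact_mod_cast h1
  have hqq := cmb_pr ha hn hH hmr
  obtain ⟨q, hq⟩ : ∃ q : ℝ, q = q0 ^ ((2 * m + 1) * (2 * I + 1)) := ⟨_, rfl⟩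
  rw [← hq] at hqq
  have hq0 : 0 < q := by rw [hq]; exact pow_pos q0_pos _
  have key := pz_comb hc hL ha hn hH hI3 hI4 (w := (n : ℝ) ^ 2 / 25) (by positivity) hcard'
    (hsq n a I ha (by omega)) hq0.le hqq
  have e1 : (n : ℝ) ^ 2 / 25 * (c * (a : ℝ) ^ (-(1/4) : ℝ)) / 2 =
      c1 * ((n : ℝ) ^ 2 * (a : ℝ) ^ (-(1/4) : ℝ)) := by rw [hc1]; ring
  rw [e1] at key
  obtain ⟨PP, hPP⟩ : ∃ PP : ℝ, PP =
    P (RE 0 n 0 n) (PerBig n (c1 * ((n : ℝ) ^ 2 * (a : ℝ) ^ (-(1/4) : ℝ)))) := ⟨_, rfl⟩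
  rw [← hPP] at key ⊢
  have h5 : c1 ^ 2 / C' * q ^ 2 ≤ PP := by
    have hnn : 0 < (n : ℝ) ^ 4 * (a : ℝ) ^ (-(1/2) : ℝ) := by positivity
    have e2 : ((a : ℝ) ^ (-(1/4) : ℝ)) ^ 2 = (a : ℝ) ^ (-(1/2) : ℝ) := by
      rw [← Real.rpow_natCast, ← Real.rpow_mul ha0.le]; norm_num
    have e3 : (c1 * ((n : ℝ) ^ 2 * (a : ℝ) ^ (-(1/4) : ℝ)) * q) ^ 2 =
        ((n : ℝ) ^ 4 * (a : ℝ) ^ (-(1/2) : ℝ)) * (c1 ^ 2 * q ^ 2) := by
      rw [← e2]; ring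
    rw [e3] at key
    have h7 : ((n : ℝ) ^ 4 * (a : ℝ) ^ (-(1/2) : ℝ)) * (c1 ^ 2 * q ^ 2) ≤
        ((n : ℝ) ^ 4 * (a : ℝ) ^ (-(1/2) : ℝ)) * (PP * C') := by linarith
    rw [div_mul_eq_mul_div, div_le_iff₀ hC']
    exact le_of_mul_le_mul_left h7 hnn
  refine le_trans ?_ h5
  obtain ⟨Z, hZ⟩ : ∃ Z : ℝ, Z = ((n : ℝ) / a) ^ 2 := ⟨_, rfl⟩
  rw [← hZ]
  have hna1 : 1 ≤ (n : ℝ) / a := by rw [le_div_iff₀ ha0]; linarith
  have hZ1 : 1 ≤ Z := by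
    rw [hZ]
    nlinarith
  have h8 : Real.exp (-(1 - 8 * Real.log q0) * Z) ≤ q ^ 2 := by
    rw [hq, ← pow_mul]
    have e : q0 ^ ((2 * m + 1) * (2 * I + 1) * 2) =
        Real.exp ((((2 * m + 1) * (2 * I + 1) * 2 : ℕ) : ℝ) * Real.log q0) := by
      rw [Real.exp_nat_mul, Real.exp_log q0_pos]
    rw [e]
    refine Real.exp_le_exp.mpr ?_
    have h9 : (((2 * m + 1) * (2 * I + 1) * 2 : ℕ) : ℝ) ≤ 8 * Z := by
      push_cast
      have g1 : 2 * (m : ℝ) + 1 ≤ 2 * ((n : ℝ) / a) := by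
        have e : (n : ℝ) / (32 * (a : ℝ)) = ((n : ℝ) / a) / 32 := by field_simp
        rw [e] at hm1
        linarith
      have g2 : 2 * (I : ℝ) + 1 ≤ 2 * ((n : ℝ) / a) := by
        have e : (n : ℝ) / a / 40 = n / (40 * a) := by field_simp
        have g3 : (I : ℝ) ≤ ((n : ℝ) / a) / 40 := by
          rw [e, le_div_iff₀ (by positivity)]
          linarith
        linarith
      have g3 : (2 * (m : ℝ) + 1) * (2 * (I : ℝ) + 1) ≤ (2 * ((n : ℝ) / a)) * (2 * ((n : ℝ) / a)) :=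
        mul_le_mul g1 g2 (by positivity) (by positivity)
      rw [hZ]
      linarith
    have h10 := mul_le_mul_of_nonpos_right h9 log_q0
    linarith
  have h11 : Real.exp (-|Real.log (c1 ^ 2 / C')| * Z) ≤ c1 ^ 2 / C' := by
    rw [← Real.exp_log hcc]
    refine Real.exp_le_exp.mpr ?_
    rw [Real.exp_log hcc]
    have g1 := neg_abs_le (Real.log (c1 ^ 2 / C'))
    have g2 := mul_le_mul_of_nonneg_left hZ1 (abs_nonneg (Real.log (c1 ^ 2 / C')))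
    linarith
  calc Real.exp (-((|Real.log (c1 ^ 2 / C')| + (1 - 8 * Real.log q0)) * Z))
      = Real.exp (-|Real.log (c1 ^ 2 / C')| * Z) * Real.exp (-(1 - 8 * Real.log q0) * Z) := by
        rw [← Real.exp_add]; congr 1; ring
    _ ≤ c1 ^ 2 / C' * q ^ 2 := mul_le_mul h11 h8 (Real.exp_pos _).le hcc.le

/-- Lower bound for the tail of the perimeter. -/
theorem per_tail_low {c : ℝ} (hc : 0 < c) (hL : LowA c (1/4)) {C : ℝ} (hC : 0 < C)
    (hU : TwoUp C (1/4)) :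
    ∃ c2 K2 : ℝ, 0 < c2 ∧ 0 < K2 ∧ ∀ n : ℕ, 1 ≤ n → ∀ x : ℝ, 1 ≤ x →
      x ≤ c2 * (n : ℝ) ^ (1/4 : ℝ) → Real.exp (-(K2 * x ^ 8)) ≤
        P (RE 0 n 0 n) (fun F => ∀ w, IsMax n (↑F) w →
          2 * x * (n : ℝ) ^ (7/4 : ℝ) ≤ (per n (↑F) w : ℝ)) := by
  obtain ⟨c1, K1, hc1, hK1, h⟩ := per_low hc hL hC hU
  obtain ⟨B, hB⟩ : ∃ B : ℝ, B = (16 / c1) ^ 4 + 200 := ⟨_, rfl⟩
  have hB0 : 0 < B := by rw [hB]; positivity
  refine ⟨1 / (1 + B), 4 * B ^ 2 * K1, by positivity, by positivity, ?_⟩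
  intro n hn1 x hx hxn
  have hn : (0 : ℝ) < n := by exact_mod_cast hn1
  obtain ⟨M, hM⟩ : ∃ M : ℝ, M = B * x ^ 4 := ⟨_, rfl⟩
  have hx4 : 1 ≤ x ^ 4 := one_le_pow₀ hx
  have hM0 : 0 < M := by rw [hM]; positivity
  have hM1 : 200 ≤ M := by
    rw [hM, hB]
    have h1 : 0 ≤ (16 / c1) ^ 4 := by positivity
    nlinarith
  have hM2 : (16 * x / c1) ^ 4 ≤ M := by
    rw [hM, hB]
    have h1 : (16 * x / c1) ^ 4 = (16 / c1) ^ 4 * x ^ 4 := by
      rw [show 16 * x / c1 = 16 / c1 * x by ring, mul_pow]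
    have h2 : 0 ≤ 200 * x ^ 4 := by positivity
    rw [h1]
    linarith
  have hMn : M ≤ n := by
    have h1 : x ^ 4 ≤ (1 / (1 + B)) ^ 4 * n := by
      calc x ^ 4 ≤ (1 / (1 + B) * (n : ℝ) ^ (1/4 : ℝ)) ^ 4 := pow_le_pow_left₀ (by linarith) hxn 4
        _ = (1 / (1 + B)) ^ 4 * n := by
          rw [mul_pow, ← Real.rpow_natCast ((n : ℝ) ^ (1/4 : ℝ)), ← Real.rpow_mul hn.le]
          norm_num
    have h2 : (1 / (1 + B)) ^ 4 ≤ 1 / (1 + B) := by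
      have h3 : 1 / (1 + B) ≤ 1 := by
        rw [div_le_one (by linarith)]; linarith
      exact pow_le_of_le_one (by positivity) h3 (by norm_num)
    have h4 : B * (1 / (1 + B)) ≤ 1 := by
      rw [mul_one_div, div_le_one (by linarith)]; linarith
    calc M = B * x ^ 4 := hM
      _ ≤ B * ((1 / (1 + B)) ^ 4 * n) := mul_le_mul_of_nonneg_left h1 hB0.le
      _ ≤ B * (1 / (1 + B) * n) := by
        refine mul_le_mul_of_nonneg_left ?_ hB0.le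
        exact mul_le_mul_of_nonneg_right h2 hn.le
      _ = (B * (1 / (1 + B))) * n := by ring
      _ ≤ 1 * n := mul_le_mul_of_nonneg_right h4 hn.le
      _ = n := one_mul _
  obtain ⟨a, ha⟩ : ∃ a : ℕ, a = ⌊(n : ℝ) / M⌋₊ := ⟨_, rfl⟩
  have h1M : 1 ≤ (n : ℝ) / M := by rw [le_div_iff₀ hM0]; linarith
  have ha1 : 1 ≤ a := by rw [ha]; exact Nat.one_le_floor_iff _ |>.mpr h1M
  have haR : (1 : ℝ) ≤ a := by exact_mod_cast ha1
  have ha0 : (0 : ℝ) < a := by linarith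
  have haM : (a : ℝ) ≤ n / M := by rw [ha]; exact Nat.floor_le (by positivity)
  have haM2 : (n : ℝ) / M < a + 1 := by rw [ha]; exact Nat.lt_floor_add_one _
  have hna : M ≤ n / a := by
    rw [le_div_iff₀ ha0]
    rw [le_div_iff₀ hM0] at haM
    linarith
  have hna2 : (n : ℝ) / a ≤ 2 * M := by
    rw [div_le_iff₀ ha0]
    rw [div_lt_iff₀ hM0] at haM2
    nlinarith
  have h200 : 200 * a ≤ n := by
    rw [le_div_iff₀ ha0] at hna
    have h1 : 200 * (a : ℝ) ≤ n := (mul_le_mul_of_nonneg_right hM1 ha0.le).trans hna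
    exact_mod_cast h1
  have key := h n a ha1 h200
  refine le_trans ?_ (key.trans (Pr_mono two_ok fun F hF hlen w hw => ?_))
  · refine Real.exp_le_exp.mpr ?_
    have h1 : ((n : ℝ) / a) ^ 2 ≤ (2 * M) ^ 2 := pow_le_pow_left₀ (by positivity) hna2 2
    have h2 : (2 * M) ^ 2 = 4 * B ^ 2 * x ^ 8 := by rw [hM]; ring
    rw [h2] at h1
    have h3 := mul_le_mul_of_nonneg_left h1 hK1.le
    linarith
  · have hlen := hlen w hw
    have h3 : 16 * x / c1 ≤ ((n : ℝ) / a) ^ (1/4 : ℝ) := by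
      calc 16 * x / c1 = ((16 * x / c1) ^ 4) ^ (1/4 : ℝ) := by
            rw [← Real.rpow_natCast, ← Real.rpow_mul (by positivity)]
            norm_num
        _ ≤ ((n : ℝ) / a) ^ (1/4 : ℝ) :=
            Real.rpow_le_rpow (by positivity) (hM2.trans hna) (by norm_num)
    have h4 : (n : ℝ) ^ 2 * (a : ℝ) ^ (-(1/4) : ℝ) =
        (n : ℝ) ^ (7/4 : ℝ) * ((n : ℝ) / a) ^ (1/4 : ℝ) := by
      rw [Real.div_rpow hn.le ha0.le, Real.rpow_neg ha0.le, mul_div_assoc', ← Real.rpow_add hn]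
      norm_num
      rfl
    rw [h4] at hlen
    have h5 : (n : ℝ) ^ (7/4 : ℝ) * (16 * x) ≤
        c1 * ((n : ℝ) ^ (7/4 : ℝ) * ((n : ℝ) / a) ^ (1/4 : ℝ)) := by
      rw [div_le_iff₀ hc1] at h3
      have h6 := mul_le_mul_of_nonneg_left h3 (Real.rpow_nonneg hn.le (7/4 : ℝ))
      linarith
    linarith

end TH494.PT
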