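import Mathlib.Combinatorics.SimpleGraph.Paths
import Pool.Agent.TH992.T.Chern

/-!
Peierls argument on a grid: connected sets of cells with many bad cells are unlikely.
-/

set_option autoImplicit false

namespace TH494.PT

open H974 Finset TH992.T

section abs

variable {E : Type*} [DecidableEq E]

/-- Chernoff bound for cells whose windows are disjoint if the cells are congruent modulo `k` -/
theorem chernG {p : E → ℝ} (hp : Ok p) {S : Finset E} (k : ℕ) (hk : 1 ≤ k) (G : Finset (ℤ × ℤ))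
    (T : ℤ × ℤ → Finset E) (hT : ∀ q ∈ G, T q ⊆ S)
    (hd : ∀ q ∈ G, ∀ r ∈ G, q ≠ r → q.1 % k = r.1 % k → q.2 % k = r.2 % k →
      Disjoint (T q) (T r))
    (Y : ℤ × ℤ → Finset E → ℝ) (hY : ∀ q ∈ G, ∀ F, F ⊆ S → Y q F = Y q (F ∩ T q)) {M : ℝ}
    (hM1 : 1 ≤ M) (hM : ∀ q ∈ G, Ex p S (fun F => Real.exp (Y q F)) ≤ M) (t : ℝ) :
    Pr p S (fun F => ((k : ℝ) * k) * t ≤ ∑ q ∈ G, Y q F) ≤
      ((k : ℝ) * k) * (Real.exp (-t) * M ^ G.card) := by
  classical
  obtain ⟨K, hK⟩ : ∃ K : Finset (ℤ × ℤ), K = Finset.Ico (0:ℤ) k ×ˢ Finset.Ico (0:ℤ) k := ⟨_, rfl⟩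
  have hk0 : (0:ℤ) < k := by exact_mod_cast hk
  have hmap : ∀ q ∈ G, ((q.1 % k, q.2 % k) : ℤ × ℤ) ∈ K := by
    intro q _
    rw [hK, mem_product, mem_Ico, mem_Ico]
    exact ⟨⟨Int.emod_nonneg _ hk0.ne', Int.emod_lt_of_pos _ hk0⟩,
      Int.emod_nonneg _ hk0.ne', Int.emod_lt_of_pos _ hk0⟩
  have hfib : ∀ F, ∑ q ∈ G, Y q F =
      ∑ c ∈ K, ∑ q ∈ G with ((q.1 % k, q.2 % k) : ℤ × ℤ) = c, Y q F := by
    intro F
    exact (sum_fiberwise_of_maps_to hmap _).symm
  have hcard : (K.card : ℝ) = (k : ℝ) * k := by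
    rw [hK, card_product, Int.card_Ico]
    simp
  have hKne : K.Nonempty := ⟨(0, 0), by
    rw [hK, mem_product, mem_Ico]; exact ⟨⟨le_rfl, hk0⟩, le_rfl, hk0⟩⟩
  have h1 : Pr p S (fun F => ((k : ℝ) * k) * t ≤ ∑ q ∈ G, Y q F) ≤
      Ex p S (fun F => ∑ c ∈ K, ind (t ≤ ∑ q ∈ G with ((q.1 % k, q.2 % k) : ℤ × ℤ) = c, Y q F)) := by
    unfold Pr
    refine Ex_mono hp fun F _ => ?_
    by_cases h : ((k : ℝ) * k) * t ≤ ∑ q ∈ G, Y q F
    · rw [ind_of h]
      rw [hfib] at h
      obtain ⟨c, hc, hc2⟩ : ∃ c ∈ K, t ≤ ∑ q ∈ G with ((q.1 % k, q.2 % k) : ℤ × ℤ) = c, Y q F := by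
        by_contra hcon
        push Not at hcon
        have h2 : ∑ c ∈ K, ∑ q ∈ G with ((q.1 % k, q.2 % k) : ℤ × ℤ) = c, Y q F < ∑ c ∈ K, t :=
          sum_lt_sum_of_nonempty hKne hcon
        rw [sum_const, nsmul_eq_mul, hcard] at h2
        linarith
      calc (1:ℝ) = ind (t ≤ ∑ q ∈ G with ((q.1 % k, q.2 % k) : ℤ × ℤ) = c, Y q F) := (ind_of hc2).symm
        _ ≤ _ := single_le_sum
          (f := fun c => ind (t ≤ ∑ q ∈ G with ((q.1 % k, q.2 % k) : ℤ × ℤ) = c, Y q F))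
          (fun c _ => ind_nonneg _) hc
    · rw [ind_not_of h]
      exact sum_nonneg fun c _ => ind_nonneg _
  refine h1.trans ?_
  rw [Ex_sum]
  have h2 : ∀ c ∈ K, Ex p S (fun F => ind (t ≤ ∑ q ∈ G with ((q.1 % k, q.2 % k) : ℤ × ℤ) = c, Y q F)) ≤
      Real.exp (-t) * M ^ G.card := by
    intro c _
    have h3 := chern1 hp (G.filter (fun q => ((q.1 % k, q.2 % k) : ℤ × ℤ) = c)) T
      (fun i hi => hT i (mem_filter.mp hi).1)
      (fun i hi j hj hij => by
        rw [mem_filter] at hi hj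
        have e1 := hi.2.trans hj.2.symm
        rw [Prod.mk.injEq] at e1
        exact hd i hi.1 j hj.1 hij e1.1 e1.2) Y (fun i hi => hY i (mem_filter.mp hi).1)
      (fun i hi => hM i (mem_filter.mp hi).1) t
    refine h3.trans (mul_le_mul_of_nonneg_left ?_ (Real.exp_pos _).le)
    exact pow_le_pow_right₀ hM1 (card_filter_le _ _)
  refine (sum_le_sum h2).trans ?_
  rw [sum_const, nsmul_eq_mul, hcard]

open Classical in
/-- many bad cells in a fixed set of cells -/
theorem many_bad {p : E → ℝ} (hp : Ok p) {S : Finset E} (k : ℕ) (hk : 1 ≤ k)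
    (G : Finset (ℤ × ℤ)) (T : ℤ × ℤ → Finset E) (hT : ∀ q ∈ G, T q ⊆ S)
    (hd : ∀ q ∈ G, ∀ r ∈ G, q ≠ r → q.1 % k = r.1 % k → q.2 % k = r.2 % k →
      Disjoint (T q) (T r))
    (Bad : ℤ × ℤ → Finset E → Prop) (hB : ∀ q ∈ G, ∀ F, F ⊆ S → (Bad q F ↔ Bad q (F ∩ T q)))
    {τ : ℝ} (hτ : 0 ≤ τ) (hP : ∀ q ∈ G, Pr p S (Bad q) ≤ Real.exp (-τ)) :
    Pr p S (fun F => G.card ≤ 2 * (G.filter (fun q => Bad q F)).card) ≤
      ((k : ℝ) * k) * (Real.exp (-(τ * G.card / (2 * (k * k)))) * 2 ^ G.card) := by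
  have hk0 : (0:ℝ) < k := by exact_mod_cast hk
  have h1 := chernG hp k hk G T hT hd (fun q F => τ * ind (Bad q F)) (fun q hq F hF => by
    show τ * ind (Bad q F) = τ * ind (Bad q (F ∩ T q))
    rw [ind_congr (hB q hq F hF)]) (M := 2) (by norm_num) (fun q hq => ?_)
    (τ * G.card / (2 * (k * k)))
  · refine le_trans (Pr_mono hp fun F _ hF => ?_) h1
    have h2 : ∑ q ∈ G, τ * ind (Bad q F) = τ * (G.filter (fun q => Bad q F)).card := by
      rw [← mul_sum, card_filter]
      push_cast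
      congr 1
    rw [h2]
    have h3 : (G.card : ℝ) ≤ 2 * ((G.filter (fun q => Bad q F)).card : ℝ) := by exact_mod_cast hF
    have h4 : (k : ℝ) * k * (τ * G.card / (2 * (k * k))) = τ * (G.card / 2) := by
      field_simp
    rw [h4]
    exact mul_le_mul_of_nonneg_left (by linarith) hτ
  · have h2 : Ex p S (fun F => Real.exp (τ * ind (Bad q F))) ≤
        Ex p S (fun F => 1 + Real.exp τ * ind (Bad q F)) := by
      refine Ex_mono hp fun F _ => ?_
      by_cases h : Bad q F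
      · rw [ind_of h, mul_one, mul_one]; linarith [Real.exp_pos τ]
      · rw [ind_not_of h, mul_zero, mul_zero, Real.exp_zero, add_zero]
    refine h2.trans ?_
    rw [Ex_add, Ex_const, Ex_mul_left]
    have h3 := mul_le_mul_of_nonneg_left (hP q hq) (Real.exp_pos τ).le
    rw [← Real.exp_add, add_neg_cancel, Real.exp_zero] at h3
    have h4 : Ex p S (fun F => ind (Bad q F)) = Pr p S (Bad q) := rfl
    rw [h4]
    linarith

end abs

/-! ### Paths of cells -/

/-- the four directions -/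
def D4 : Finset (ℤ × ℤ) := {(1, 0), (-1, 0), (0, 1), (0, -1)}

theorem card_D4 : D4.card ≤ 4 := by decide

/-- nearest neighbour paths of length `L` -/
def paths : ℕ → ℤ × ℤ → Finset (List (ℤ × ℤ))
  | 0, z => {[z]}
  | L + 1, z => D4.biUnion (fun d => (paths L (z + d)).image (fun l => z :: l))

theorem card_paths (L : ℕ) (z : ℤ × ℤ) : (paths L z).card ≤ 4 ^ L := by
  induction L generalizing z with
  | zero => simp [paths]
  | succ L ih =>
    unfold paths
    refine card_biUnion_le.trans ?_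
    refine (sum_le_card_nsmul _ _ (4 ^ L) fun d _ => card_image_le.trans (ih _)).trans ?_
    rw [smul_eq_mul, pow_succ, mul_comm (4 ^ L)]
    exact Nat.mul_le_mul_right _ card_D4

theorem paths_length {L : ℕ} {z : ℤ × ℤ} {l : List (ℤ × ℤ)} (h : l ∈ paths L z) :
    l.length = L + 1 := by
  induction L generalizing z l with
  | zero =>
    simp only [paths, mem_singleton] at h
    rw [h]; rfl
  | succ L ih =>
    simp only [paths, mem_biUnion, mem_image] at h
    obtain ⟨d, _, l', hl', rfl⟩ := h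
    rw [List.length_cons, ih hl']

/-- the graph of the visited cells -/
def cellG (V : Set (ℤ × ℤ)) : SimpleGraph (ℤ × ℤ) where
  Adj z w := z ∈ V ∧ w ∈ V ∧ w - z ∈ D4
  symm := ⟨by
    rintro z w ⟨h1, h2, h3⟩
    refine ⟨h2, h1, ?_⟩
    simp only [D4, mem_insert, mem_singleton, Prod.ext_iff, Prod.fst_sub, Prod.snd_sub] at h3 ⊢
    omega⟩
  loopless := ⟨by
    rintro z ⟨_, _, h3⟩
    rw [sub_self] at h3
    exact absurd h3 (by decide)⟩

theorem support_paths {V : Set (ℤ × ℤ)} {z w : ℤ × ℤ} (p : (cellG V).Walk z w) :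
    p.support ∈ paths p.length z := by
  induction p with
  | nil => simp [paths]
  | @cons u v w h p ih =>
    simp only [SimpleGraph.Walk.length_cons, SimpleGraph.Walk.support_cons, paths, mem_biUnion,
      mem_image]
    refine ⟨v - u, h.2.2, p.support, ?_, rfl⟩
    rw [add_sub_cancel]
    exact ih

theorem support_mem {V : Set (ℤ × ℤ)} {z w : ℤ × ℤ} (p : (cellG V).Walk z w) (hz : z ∈ V) :
    ∀ x ∈ p.support, x ∈ V := by
  induction p with
  | nil =>
    intro x hx
    rw [SimpleGraph.Walk.support_nil, List.mem_singleton] at hx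
    rw [hx]; exact hz
  | @cons u v w h p ih =>
    intro x hx
    rw [SimpleGraph.Walk.support_cons, List.mem_cons] at hx
    rcases hx with rfl | hx
    · exact hz
    · exact ih h.2.1 x hx

/-- the length of a walk of cells is at least the distance -/
theorem walk_len {V : Set (ℤ × ℤ)} {z w : ℤ × ℤ} (p : (cellG V).Walk z w) :
    |z.1 - w.1| ≤ p.length ∧ |z.2 - w.2| ≤ p.length := by
  induction p with
  | nil => simp
  | @cons u v w h p ih =>
    have h3 := h.2.2
    simp only [D4, mem_insert, mem_singleton, Prod.ext_iff, Prod.fst_sub, Prod.snd_sub] at h3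
    rw [SimpleGraph.Walk.length_cons]
    push_cast
    obtain ⟨h1, h2⟩ := ih
    rw [abs_le] at h1 h2 ⊢
    rw [abs_le]
    omega

/-- a sequence of cells contains a path of distinct cells of length `L` -/
theorem exists_path {c : ℕ → ℤ × ℤ} {T L : ℕ}
    (hstep : ∀ t < T, c (t + 1) = c t ∨ c (t + 1) - c t ∈ D4)
    (hfar : (L : ℤ) ≤ |(c 0).1 - (c T).1| ∨ (L : ℤ) ≤ |(c 0).2 - (c T).2|) :
    ∃ l ∈ paths L (c 0), l.Nodup ∧ ∀ x ∈ l, ∃ t ≤ T, c t = x := by
  classical
  obtain ⟨V, hV⟩ : ∃ V : Set (ℤ × ℤ), V = {x | ∃ t ≤ T, c t = x} := ⟨_, rfl⟩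
  have hr : ∀ t ≤ T, (cellG V).Reachable (c 0) (c t) := by
    intro t
    induction t with
    | zero => intro _; exact SimpleGraph.Reachable.refl _
    | succ t ih =>
      intro ht
      have h1 := ih (by omega)
      rcases hstep t (by omega) with h | h
      · rw [h]; exact h1
      · refine h1.trans (SimpleGraph.Adj.reachable ?_)
        refine ⟨?_, ?_, h⟩
        · rw [hV]; exact ⟨t, by omega, rfl⟩
        · rw [hV]; exact ⟨t + 1, ht, rfl⟩
  obtain ⟨p, hp⟩ := (hr T le_rfl).exists_isPath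
  have hlen := walk_len p
  have hL : L ≤ p.length := by
    rcases hfar with h | h
    · exact_mod_cast h.trans hlen.1
    · exact_mod_cast h.trans hlen.2
  have h0 : c 0 ∈ V := by rw [hV]; exact ⟨0, Nat.zero_le _, rfl⟩
  refine ⟨(p.take L).support, ?_, (hp.take L).support_nodup, ?_⟩
  · have h1 := support_paths (p.take L)
    rw [SimpleGraph.Walk.take_length, min_eq_left hL] at h1
    exact h1
  · intro x hx
    have h1 := support_mem (p.take L) h0 x hx
    rw [hV] at h1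
    exact h1

end TH494.PT
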