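import Pool.Agent.TH992.T.Up
import Pool.Agent.H342R2.Per.Sharp

/-!
Upper tail of the perimeter of the largest cluster: sums of local counts at scale `n / K`.
-/

set_option autoImplicit false

namespace TH494.PT

open H974 Finset Filter Topology H342P H984P H984N TH992.T

section fam

variable {a B C0 : ℝ} {p : Edg → ℝ} {S : Finset Edg} {x : ℕ → Vtx → Finset Edg → ℝ}

/-- covering of a box by boxes of side `r`, counts at scale `r` -/
theorem sum_cover (h : Fam a B C0 p S x) {s r n : ℕ} (hr : 1 ≤ r) (hn : s ≤ n * r)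
    (b c : ℤ) (F : Finset Edg) :
    ∑ v ∈ Bq b c s, x r v F ≤
      ∑ q ∈ range n ×ˢ range n, Nb x r (b + q.1 * r) (c + q.2 * r) F := by
  have hsub : Bq b c s ⊆ (range n ×ˢ range n).biUnion
      (fun q => Bq (b + q.1 * r) (c + q.2 * r) r) := by
    intro v hv
    rw [mem_Bq] at hv
    rw [mem_biUnion]
    have hr' : (0 : ℤ) < r := by exact_mod_cast hr
    obtain ⟨i, hi⟩ := Int.eq_ofNat_of_zero_le (Int.ediv_nonneg (show 0 ≤ v.1 - b by linarith) hr'.le)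
    obtain ⟨j, hj⟩ := Int.eq_ofNat_of_zero_le (Int.ediv_nonneg (show 0 ≤ v.2 - c by linarith) hr'.le)
    have e1 := Int.emod_add_mul_ediv (v.1 - b) r
    have e2 := Int.emod_add_mul_ediv (v.2 - c) r
    have e3 := Int.emod_nonneg (v.1 - b) hr'.ne'
    have e4 := Int.emod_lt_of_pos (v.1 - b) hr'
    have e5 := Int.emod_nonneg (v.2 - c) hr'.ne'
    have e6 := Int.emod_lt_of_pos (v.2 - c) hr'
    have hn' : (s : ℤ) ≤ n * r := by exact_mod_cast hn
    rw [hi] at e1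
    rw [hj] at e2
    refine ⟨(i, j), ?_, ?_⟩
    · rw [mem_product, mem_range, mem_range]
      constructor
      · by_contra hcon
        push Not at hcon
        have : (n : ℤ) * r ≤ r * i := by
          rw [mul_comm]
          exact mul_le_mul_of_nonneg_left (by exact_mod_cast hcon) hr'.le
        linarith
      · by_contra hcon
        push Not at hcon
        have : (n : ℤ) * r ≤ r * j := by
          rw [mul_comm]
          exact mul_le_mul_of_nonneg_left (by exact_mod_cast hcon) hr'.le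
        linarith
    · rw [mem_Bq]
      have f1 : (i : ℤ) * r = r * i := mul_comm _ _
      have f2 : (j : ℤ) * r = r * j := mul_comm _ _
      simp only
      rw [f1, f2]
      refine ⟨⟨?_, ?_⟩, ?_, ?_⟩ <;> linarith
  calc ∑ v ∈ Bq b c s, x r v F
      ≤ ∑ v ∈ (range n ×ˢ range n).biUnion (fun q => Bq (b + q.1 * r) (c + q.2 * r) r), x r v F :=
        sum_le_sum_of_subset_of_nonneg hsub fun v _ _ => h.nonneg _ _ _
    _ ≤ ∑ q ∈ range n ×ˢ range n, ∑ v ∈ Bq (b + q.1 * r) (c + q.2 * r) r, x r v F :=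
        sum_bi_le _ _ _ fun v => h.nonneg _ _ _
    _ = _ := rfl

/-- exponential moment of the normalised number in a box -/
theorem exp_mom (ha : 0 < a) (ha1 : a < 1) (B : ℝ) (hC0 : 0 ≤ C0) : ∃ M : ℝ, 1 ≤ M ∧
    ∀ (p : Edg → ℝ) (S : Finset Edg) (x : ℕ → Vtx → Finset Edg → ℝ), Fam a B C0 p S x →
    ∀ (r : ℕ) (b c : ℤ), 1 ≤ r → Ex p S (fun F => Real.exp (Yb a x r b c F / 2)) ≤ M := by
  obtain ⟨u0, h0⟩ := tail0 (C0 := C0) ha ha1 B hC0
  refine ⟨max (Real.exp (u0 + 1 / 2) * (1 - Real.exp (-(1/2)))⁻¹) 1, le_max_right _ _, ?_⟩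
  intro p S x h r b c hr
  refine (expmom h.ok (Yb a x r b c) (Yb_nonneg h _ _ _) (u0 := u0) (fun v hv => ?_)
    ⌈B * (r : ℝ) ^ a⌉₊ (fun F _ => ?_)).trans (le_max_left _ _)
  · exact h0 p S x h r _ _ v hr hv
  · exact (Yb_le h hr _ _ F).trans (Nat.le_ceil _)

/-- Chernoff bound for the sum over the boxes -/
theorem tailK (ha : 0 < a) (ha1 : a < 1) (B : ℝ) (hC0 : 0 ≤ C0) : ∃ l : ℝ, 1 ≤ l ∧ B ≤ l ∧
    ∀ (p : Edg → ℝ) (S : Finset Edg) (x : ℕ → Vtx → Finset Edg → ℝ), Fam a B C0 p S x →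
    ∀ (r K : ℕ) (b c : ℤ), 1 ≤ r →
      Pr p S (fun F => (l / 2) * ((K : ℝ) * K) ≤ ∑ q ∈ range (2 * K) ×ˢ range (2 * K),
        Yb a x r (b + q.1 * r) (c + q.2 * r) F) ≤ 9 * Real.exp (-((K : ℝ) * K)) := by
  obtain ⟨M, hM1, hM⟩ := exp_mom (C0 := C0) ha ha1 B hC0
  have hM0 : 0 < M := by linarith
  obtain ⟨l, hl⟩ : ∃ l : ℝ, l = max (36 * (1 + 4 * Real.log M)) (max B 1) := ⟨_, rfl⟩
  have hl1 : 1 ≤ l := by rw [hl]; exact (le_max_right B 1).trans (le_max_right _ _)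
  have hlB : B ≤ l := by rw [hl]; exact (le_max_left B 1).trans (le_max_right _ _)
  have hlC : 36 * (1 + 4 * Real.log M) ≤ l := by rw [hl]; exact le_max_left _ _
  have hl0 : 0 < l := by linarith
  refine ⟨l, hl1, hlB, fun p S x h r K b c hr => ?_⟩
  obtain ⟨Y, hY⟩ : ∃ Y : ℕ × ℕ → Finset Edg → ℝ,
    Y = fun q F => Yb a x r (b + q.1 * (r : ℕ)) (c + q.2 * (r : ℕ)) F := ⟨_, rfl⟩
  obtain ⟨t, ht⟩ : ∃ t : ℝ, t = l * (K * K) / 36 := ⟨_, rfl⟩
  have hP : Pr p S (fun F => (l / 2) * ((K : ℝ) * K) ≤ ∑ q ∈ range (2 * K) ×ˢ range (2 * K),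
        Yb a x r (b + q.1 * r) (c + q.2 * r) F) ≤
      Pr p S (fun F => 9 * t ≤ ∑ q ∈ range (2 * K) ×ˢ range (2 * K), Y q F / 2) := by
    refine Pr_mono h.ok fun F _ hF => ?_
    rw [← sum_div, ht, hY]
    linarith
  have hB := chern9 h.ok (2 * K) (fun q => Tb S r (b + q.1 * (r : ℕ)) (c + q.2 * (r : ℕ)))
      (fun q => inter_subset_right) (fun q q' hqq h1 h2 => Tb_disj hr hqq h1 h2)
      (fun q F => Y q F / 2) (fun q F hF => by
        show Y q F / 2 = Y q (F ∩ _) / 2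
        rw [hY]
        simp only [Yb]
        rw [← Nb_local h r _ _ F hF])
      (M := M) hM1
      (fun q => by rw [hY]; exact hM p S x h r _ _ hr) t
  refine hP.trans (hB.trans (mul_le_mul_of_nonneg_left ?_ (by norm_num)))
  have e1 : M ^ (2 * K * (2 * K)) = Real.exp ((4 * ((K:ℝ) * K)) * Real.log M) := by
    have e2 : (4 * ((K:ℝ) * K)) * Real.log M = ((2 * K * (2 * K) : ℕ) : ℝ) * Real.log M := by
      push_cast; ring
    rw [e2, Real.exp_nat_mul, Real.exp_log hM0]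
  rw [e1, ← Real.exp_add]
  refine Real.exp_le_exp.mpr ?_
  have h5 : 36 * (1 + 4 * Real.log M) * ((K:ℝ) * K) ≤ l * (K * K) :=
    mul_le_mul_of_nonneg_right hlC (by positivity)
  rw [ht]
  linarith

/-- the tail of the number of points with arms at scale `s / K` -/
theorem tail_sum (ha : 0 < a) (ha1 : a < 1) (B : ℝ) (hC0 : 0 ≤ C0) : ∃ l : ℝ, 1 ≤ l ∧ B ≤ l ∧
    ∀ (p : Edg → ℝ) (S : Finset Edg) (x : ℕ → Vtx → Finset Edg → ℝ), Fam a B C0 p S x →
    ∀ (s K : ℕ) (b c : ℤ) (u : ℝ), 1 ≤ K → K ≤ s →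
      (l / 2) * ((K : ℝ) * K) ≤ (K : ℝ) ^ (2 - a) * u →
      Pr p S (fun F => u * (s : ℝ) ^ (2 - a) ≤ ∑ v ∈ Bq b c s, x (s / K) v F) ≤
        9 * Real.exp (-((K : ℝ) * K)) := by
  obtain ⟨l, hl1, hlB, h0⟩ := tailK (C0 := C0) ha ha1 B hC0
  refine ⟨l, hl1, hlB, fun p S x h s K b c u hK hKs hu => ?_⟩
  obtain ⟨s1, s2, s3, s4⟩ := side hK hKs
  refine le_trans (Pr_mono h.ok fun F _ hF => ?_) (h0 p S x h (s / K) K b c s1)
  obtain ⟨r, hr⟩ : ∃ r : ℕ, r = s / K := ⟨_, rfl⟩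
  rw [← hr] at s1 s2 s3 s4 hF ⊢
  have hK0 : (0 : ℝ) < K := by exact_mod_cast hK
  have hr0 : (0 : ℝ) < r := by exact_mod_cast s1
  have hs0 : (0 : ℝ) < s := by exact_mod_cast (by omega : 0 < s)
  have hc := sum_cover h s1 s4 b c F
  have hrp : (0 : ℝ) < (r : ℝ) ^ (2 - a) := Real.rpow_pos_of_pos hr0 _
  have h5 : (K : ℝ) ^ (2 - a) * (r : ℝ) ^ (2 - a) ≤ (s : ℝ) ^ (2 - a) := by
    rw [← Real.mul_rpow hK0.le hr0.le]
    refine Real.rpow_le_rpow (by positivity) ?_ (by linarith)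
    exact_mod_cast s3
  have hu0 : 0 ≤ u := by
    by_contra hcon
    push Not at hcon
    have h1 : (K : ℝ) ^ (2 - a) * u < 0 := mul_neg_of_pos_of_neg (Real.rpow_pos_of_pos hK0 _) hcon
    have h2 : 0 ≤ l / 2 * ((K : ℝ) * K) := by positivity
    linarith
  refine hu.trans ?_
  unfold Yb
  rw [← sum_div, le_div_iff₀ hrp]
  calc (K : ℝ) ^ (2 - a) * u * (r : ℝ) ^ (2 - a)
      = u * ((K : ℝ) ^ (2 - a) * (r : ℝ) ^ (2 - a)) := by ring
    _ ≤ u * (s : ℝ) ^ (2 - a) := mul_le_mul_of_nonneg_left h5 hu0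
    _ ≤ _ := hF.trans hc

end fam

end TH494.PT
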